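import Pool.Agent.KS6_95.ER.Proj

set_option autoImplicit false

/-! A bounded open convex domain has an affine image in the unit disc with three contact points
(position of the Löwner ellipse). -/

namespace Pool.Agent.KS6_95.ER

open Pool.Agent.Helper87.Erdos Set Filter Topology

/-- squared Euclidean norm -/
def N2 (x : ℝ × ℝ) : ℝ := x.1 ^ 2 + x.2 ^ 2

/-- an affine map: columns `u`, `v` and translation `w` -/
def aff (θ : (ℝ × ℝ) × (ℝ × ℝ) × (ℝ × ℝ)) (x : ℝ × ℝ) : ℝ × ℝ :=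
  x.1 • θ.1 + x.2 • θ.2.1 + θ.2.2

lemma N2_cont : Continuous N2 := by unfold N2; fun_prop

lemma aff_cont : Continuous (fun q : ((ℝ × ℝ) × (ℝ × ℝ) × (ℝ × ℝ)) × (ℝ × ℝ) => aff q.1 q.2) := by
  unfold aff; fun_prop

lemma coord_le {x : ℝ × ℝ} (h : N2 x ≤ 1) : ‖x‖ ≤ 1 := by
  unfold N2 at h
  rw [Prod.norm_def]
  apply max_le
  · rw [Real.norm_eq_abs]
    apply abs_le_of_sq_le_sq _ zero_le_one |>.trans le_rfl
    nlinarith [sq_nonneg x.2]
  · rw [Real.norm_eq_abs]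
    apply abs_le_of_sq_le_sq _ zero_le_one |>.trans le_rfl
    nlinarith [sq_nonneg x.1]

/-- perturbation -/
lemma perturb {K : Set (ℝ × ℝ)} (hK : IsCompact K) (hN : ∀ y ∈ K, N2 y ≤ 1)
    {G : ℝ × ℝ → ℝ × ℝ} (hG : Continuous G) (hneg : ∀ y ∈ K, N2 y = 1 → dot y (G y) < 0) :
    ∀ᶠ ε in 𝓝 (0:ℝ), 0 < ε → ∀ y ∈ K, N2 (y + ε • G y) ≤ 1 := by
  have h1 : ∀ᶠ ε in 𝓝 (0:ℝ), ∀ y ∈ K, (0 < ε → y ∈ K → N2 (y + ε • G y) ≤ 1) := by
    apply hK.eventually_forall_of_forall_eventually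
    intro y hy
    rcases lt_or_eq_of_le (hN y hy) with h | h
    · have hc : Continuous (fun z : ℝ × (ℝ × ℝ) => N2 (z.2 + z.1 • G z.2)) :=
        N2_cont.comp (by fun_prop)
      have := (hc.tendsto (0, y)).eventually_lt_const (u := 1) (by simpa using h)
      filter_upwards [this] with z hz _ _
      exact hz.le
    · have hc : Continuous (fun z : ℝ × (ℝ × ℝ) => 2 * dot z.2 (G z.2) + z.1 * N2 (G z.2)) := by
        unfold dot N2
        fun_prop
      have := (hc.tendsto (0, y)).eventually_lt_const (u := 0) (by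
        have := hneg y hy h
        show 2 * dot y (G y) + 0 * N2 (G y) < 0
        linarith)
      filter_upwards [this] with z hz hz1 hz2
      have e : N2 (z.2 + z.1 • G z.2) = N2 z.2 + z.1 * (2 * dot z.2 (G z.2) + z.1 * N2 (G z.2)) := by
        simp only [N2, dot, Prod.fst_add, Prod.snd_add, Prod.smul_fst, Prod.smul_snd, smul_eq_mul]
        ring
      rw [e]
      have h2 := hN z.2 hz2
      have h3 : z.1 * (2 * dot z.2 (G z.2) + z.1 * N2 (G z.2)) < 0 := mul_neg_of_pos_of_neg hz1 hz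
      linarith
  filter_upwards [h1] with ε hε h0 y hy
  exact hε y hy h0 hy

/-- the maximal position -/
structure MaxPos (M : Set (ℝ × ℝ)) : Prop where
  sub : ∀ y ∈ M, N2 y ≤ 1
  max : ∀ θ : (ℝ × ℝ) × (ℝ × ℝ) × (ℝ × ℝ), (∀ y ∈ M, N2 (aff θ y) ≤ 1) → cr θ.1 θ.2.1 ≤ 1

lemma trace_le {M : Set (ℝ × ℝ)} (h : MaxPos M) (hK : IsCompact (closure M)) {h₁ h₂ z : ℝ × ℝ}
    (hneg : ∀ y ∈ closure M, N2 y = 1 → dot y (y.1 • h₁ + y.2 • h₂ + z) < 0) :
    h₁.1 + h₂.2 ≤ 0 := by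
  by_contra htr
  push Not at htr
  have hcl : ∀ y ∈ closure M, N2 y ≤ 1 := fun y hy =>
    closure_minimal (s := M) (t := {y | N2 y ≤ 1}) h.sub (isClosed_le N2_cont continuous_const) hy
  have h1 := perturb hK hcl (G := fun y => y.1 • h₁ + y.2 • h₂ + z) (by fun_prop) hneg
  have h2 : ∀ᶠ ε in 𝓝 (0:ℝ), 0 < h₁.1 + h₂.2 + ε * (h₁.1 * h₂.2 - h₁.2 * h₂.1) := by
    have hc : Continuous (fun ε : ℝ => h₁.1 + h₂.2 + ε * (h₁.1 * h₂.2 - h₁.2 * h₂.1)) := by
      fun_prop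
    exact (hc.tendsto 0).eventually_const_lt (u := 0) (by simpa using htr)
  have h3 : ∀ᶠ ε in 𝓝[>] (0:ℝ), 0 < ε := self_mem_nhdsWithin
  obtain ⟨ε, ⟨k1, k2⟩, k3⟩ := (((h1.and h2).filter_mono nhdsWithin_le_nhds).and h3).exists
  have h4 := h.max ((1, 0) + ε • h₁, (0, 1) + ε • h₂, ε • z) (by
    intro y hy
    have := k1 k3 y (subset_closure hy)
    have e : aff ((1, 0) + ε • h₁, (0, 1) + ε • h₂, ε • z) y =
        y + ε • (y.1 • h₁ + y.2 • h₂ + z) := by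
      unfold aff
      ext
      · simp only [Prod.fst_add, Prod.smul_fst, smul_eq_mul]; ring
      · simp only [Prod.snd_add, Prod.smul_snd, smul_eq_mul]; ring
    rw [e]; exact this)
  have e : cr ((1, 0) + ε • h₁) ((0, 1) + ε • h₂) =
      1 + ε * (h₁.1 + h₂.2 + ε * (h₁.1 * h₂.2 - h₁.2 * h₂.1)) := by
    simp only [cr, Prod.fst_add, Prod.snd_add, Prod.smul_fst, Prod.smul_snd, smul_eq_mul]
    ring
  simp only at h4
  rw [e] at h4
  have : 0 < ε * (h₁.1 + h₂.2 + ε * (h₁.1 * h₂.2 - h₁.2 * h₂.1)) := mul_pos k3 k2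
  linarith

lemma two_pts {M : Set (ℝ × ℝ)} (h : MaxPos M) (hK : IsCompact (closure M)) {u v : ℝ × ℝ}
    (hu : N2 u = 1) (hv : N2 v = 1) : ¬ ∀ y ∈ closure M, N2 y = 1 → y = u ∨ y = v := by
  intro hall
  unfold N2 at hu hv
  by_cases hd : 0 < 1 + dot u v
  · obtain ⟨l, hl⟩ : ∃ l, l = 2 / (1 + dot u v) := ⟨_, rfl⟩
    have hl1 : l * (1 + dot u v) = 2 := by rw [hl]; field_simp
    have := trace_le h hK (h₁ := (1, 0)) (h₂ := (0, 1)) (z := -(l • (u + v))) (by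
      intro y hy hy1
      rcases hall y hy hy1 with rfl | rfl
      · have e : dot y (y.1 • ((1, 0) : ℝ × ℝ) + y.2 • ((0, 1) : ℝ × ℝ) + -(l • (y + v))) =
            (y.1 ^ 2 + y.2 ^ 2) - l * ((y.1 ^ 2 + y.2 ^ 2) + dot y v) := by
          simp only [dot, Prod.fst_add, Prod.snd_add, Prod.smul_fst, Prod.smul_snd, smul_eq_mul,
            Prod.fst_neg, Prod.snd_neg]
          ring
        rw [e, hu]; linarith
      · have e : dot y (y.1 • ((1, 0) : ℝ × ℝ) + y.2 • ((0, 1) : ℝ × ℝ) + -(l • (u + y))) =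
            (y.1 ^ 2 + y.2 ^ 2) - l * ((y.1 ^ 2 + y.2 ^ 2) + dot u y) := by
          simp only [dot, Prod.fst_add, Prod.snd_add, Prod.smul_fst, Prod.smul_snd, smul_eq_mul,
            Prod.fst_neg, Prod.snd_neg]
          ring
        rw [e, hv]; linarith)
    norm_num at this
  · push Not at hd
    have hvu : v = -u := by
      have e : (u.1 + v.1) ^ 2 + (u.2 + v.2) ^ 2 ≤ 0 := by
        unfold dot at hd; nlinarith
      have e1 : u.1 + v.1 = 0 := by nlinarith [sq_nonneg (u.1 + v.1), sq_nonneg (u.2 + v.2)]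
      have e2 : u.2 + v.2 = 0 := by nlinarith [sq_nonneg (u.1 + v.1), sq_nonneg (u.2 + v.2)]
      ext
      · simp only [Prod.fst_neg]; linarith
      · simp only [Prod.snd_neg]; linarith
    have key : ∀ y : ℝ × ℝ, (y = u ∨ y = -u) → dot y (y.1 • ((2 * u.2 ^ 2 - u.1 ^ 2, -3 * u.1 * u.2) : ℝ × ℝ) +
        y.2 • ((-3 * u.1 * u.2, 2 * u.1 ^ 2 - u.2 ^ 2) : ℝ × ℝ) + 0) = -(u.1 ^ 2 + u.2 ^ 2) ^ 2 := by
      intro y hy
      rcases hy with rfl | rfl <;>
      simp only [dot, Prod.fst_add, Prod.snd_add, Prod.smul_fst, Prod.smul_snd, smul_eq_mul,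
            Prod.fst_neg, Prod.snd_neg, Prod.fst_zero, Prod.snd_zero] <;> ring
    have := trace_le h hK (h₁ := (2 * u.2 ^ 2 - u.1 ^ 2, -3 * u.1 * u.2))
      (h₂ := (-3 * u.1 * u.2, 2 * u.1 ^ 2 - u.2 ^ 2)) (z := 0) (by
      intro y hy hy1
      rw [key y (by rw [← hvu]; exact hall y hy hy1), hu]
      norm_num)
    simp only at this
    nlinarith

lemma three_pts {M : Set (ℝ × ℝ)} (h : MaxPos M) (hK : IsCompact (closure M)) :
    ∃ X Y Z : ℝ × ℝ, X ∈ closure M ∧ Y ∈ closure M ∧ Z ∈ closure M ∧ N2 X = 1 ∧ N2 Y = 1 ∧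
      N2 Z = 1 ∧ X ≠ Y ∧ Y ≠ Z ∧ X ≠ Z := by
  have h1 := two_pts h hK (u := (1, 0)) (v := (1, 0)) (by norm_num [N2]) (by norm_num [N2])
  push Not at h1
  obtain ⟨X, hX, nX, -, -⟩ := h1
  have h2 := two_pts h hK (u := X) (v := X) nX nX
  push Not at h2
  obtain ⟨Y, hY, nY, hYX, -⟩ := h2
  have h3 := two_pts h hK (u := X) (v := Y) nX nY
  push Not at h3
  obtain ⟨Z, hZ, nZ, hZX, hZY⟩ := h3
  exact ⟨X, Y, Z, hX, hY, hZ, nX, nY, nZ, hYX.symm, hZY.symm, hZX.symm⟩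

/-- existence of the maximal position -/
theorem exists_maxPos {M : Set (ℝ × ℝ)} (hM : IsOpen M) (hne : M.Nonempty)
    (hb : Bornology.IsBounded M) :
    ∃ θ : (ℝ × ℝ) × (ℝ × ℝ) × (ℝ × ℝ), 0 < cr θ.1 θ.2.1 ∧ MaxPos (aff θ '' M) := by
  obtain ⟨x0, hx0⟩ := hne
  obtain ⟨r, hr0, hr⟩ := Metric.isOpen_iff.1 hM x0 hx0
  have m1 : x0 + (r / 2, 0) ∈ M := hr (by
    rw [Metric.mem_ball, dist_eq_norm, add_sub_cancel_left, Prod.norm_def]
    simp only [norm_zero, Real.norm_eq_abs]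
    rw [abs_of_pos (by linarith : 0 < r / 2)]
    apply max_lt <;> linarith)
  have m2 : x0 + (0, r / 2) ∈ M := hr (by
    rw [Metric.mem_ball, dist_eq_norm, add_sub_cancel_left, Prod.norm_def]
    simp only [norm_zero, Real.norm_eq_abs]
    rw [abs_of_pos (by linarith : 0 < r / 2)]
    apply max_lt <;> linarith)
  obtain ⟨S, hS⟩ : ∃ S : Set ((ℝ × ℝ) × (ℝ × ℝ) × (ℝ × ℝ)),
      S = {θ | ∀ y ∈ M, N2 (aff θ y) ≤ 1} := ⟨_, rfl⟩
  have hSc : IsClosed S := by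
    have : S = ⋂ y ∈ M, {θ | N2 (aff θ y) ≤ 1} := by
      rw [hS]; ext θ; simp
    rw [this]
    apply isClosed_biInter
    intro y _
    exact isClosed_le (N2_cont.comp (show Continuous (fun θ : (ℝ × ℝ) × (ℝ × ℝ) × (ℝ × ℝ) =>
      aff θ y) by unfold aff; fun_prop)) continuous_const
  have hSb : Bornology.IsBounded S := by
    apply (Metric.isBounded_closedBall (x := (0 : (ℝ × ℝ) × (ℝ × ℝ) × (ℝ × ℝ)))
      (r := 1 + (|x0.1| + |x0.2| + 1) * (4 / r))).subset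
    intro θ hθ
    rw [hS] at hθ
    have n0 := coord_le (hθ x0 hx0)
    have n1 := coord_le (hθ _ m1)
    have n2 := coord_le (hθ _ m2)
    have hu : ‖θ.1‖ ≤ 4 / r := by
      have e : (r / 2) • θ.1 = aff θ (x0 + (r / 2, 0)) - aff θ x0 := by
        unfold aff
        simp only [Prod.fst_add, Prod.snd_add]
        module
      have h1 : ‖(r / 2) • θ.1‖ ≤ 2 := by
        rw [e]
        exact (norm_sub_le _ _).trans (by linarith)
      rw [norm_smul, Real.norm_eq_abs, abs_of_pos (by linarith : 0 < r / 2)] at h1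
      rw [le_div_iff₀ hr0]; linarith
    have hv : ‖θ.2.1‖ ≤ 4 / r := by
      have e : (r / 2) • θ.2.1 = aff θ (x0 + (0, r / 2)) - aff θ x0 := by
        unfold aff
        simp only [Prod.fst_add, Prod.snd_add]
        module
      have h1 : ‖(r / 2) • θ.2.1‖ ≤ 2 := by
        rw [e]
        exact (norm_sub_le _ _).trans (by linarith)
      rw [norm_smul, Real.norm_eq_abs, abs_of_pos (by linarith : 0 < r / 2)] at h1
      rw [le_div_iff₀ hr0]; linarith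
    have hw : ‖θ.2.2‖ ≤ 1 + (|x0.1| + |x0.2|) * (4 / r) := by
      have e : θ.2.2 = aff θ x0 - (x0.1 • θ.1 + x0.2 • θ.2.1) := by
        unfold aff; module
      rw [e]
      refine (norm_sub_le _ _).trans ?_
      have h1 : ‖x0.1 • θ.1 + x0.2 • θ.2.1‖ ≤ |x0.1| * (4 / r) + |x0.2| * (4 / r) := by
        refine (norm_add_le _ _).trans ?_
        rw [norm_smul, norm_smul, Real.norm_eq_abs, Real.norm_eq_abs]
        gcongr
      linarith
    have p0 : 0 < 4 / r := by positivity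
    have p1 : 0 ≤ |x0.1| * (4 / r) := by positivity
    have p2 : 0 ≤ |x0.2| * (4 / r) := by positivity
    rw [mem_closedBall_zero_iff]
    refine norm_prod_le_iff.2 ⟨?_, norm_prod_le_iff.2 ⟨?_, ?_⟩⟩
    · linarith
    · linarith
    · linarith
  have hScomp : IsCompact S := Metric.isCompact_of_isClosed_isBounded hSc hSb
  have h0S : (0 : (ℝ × ℝ) × (ℝ × ℝ) × (ℝ × ℝ)) ∈ S := by
    rw [hS]; intro y _
    simp [aff, N2]
  obtain ⟨θ, hθS, hmax⟩ := hScomp.exists_isMaxOn ⟨_, h0S⟩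
    (f := fun θ : (ℝ × ℝ) × (ℝ × ℝ) × (ℝ × ℝ) => cr θ.1 θ.2.1) (by unfold cr; fun_prop)
  -- a positive competitor
  have hpos : 0 < cr θ.1 θ.2.1 := by
    obtain ⟨R, hR⟩ := hb.exists_norm_le
    have hR0 : 0 < |R| + 1 := by positivity
    obtain ⟨t, ht⟩ : ∃ t, t = 1 / (2 * (|R| + 1)) := ⟨_, rfl⟩
    have ht0 : 0 < t := by rw [ht]; positivity
    have hmem : (((t, 0), (0, t), 0) : (ℝ × ℝ) × (ℝ × ℝ) × (ℝ × ℝ)) ∈ S := by
      rw [hS]
      intro y hy
      have h1 := hR y hy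
      have a1 : |y.1| ≤ |R| + 1 := by
        have := norm_fst_le y
        rw [Real.norm_eq_abs] at this
        linarith [le_abs_self R]
      have a2 : |y.2| ≤ |R| + 1 := by
        have := norm_snd_le y
        rw [Real.norm_eq_abs] at this
        linarith [le_abs_self R]
      have b1 : |t * y.1| ≤ 1/2 := by
        rw [abs_mul, abs_of_pos ht0, ht]
        rw [one_div_mul_eq_div, div_le_iff₀ (by positivity)]; linarith
      have b2 : |t * y.2| ≤ 1/2 := by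
        rw [abs_mul, abs_of_pos ht0, ht]
        rw [one_div_mul_eq_div, div_le_iff₀ (by positivity)]; linarith
      have e : N2 (aff ((t, 0), (0, t), 0) y) = (t * y.1) ^ 2 + (t * y.2) ^ 2 := by
        simp only [N2, aff, Prod.fst_add, Prod.snd_add, Prod.smul_fst, Prod.smul_snd, smul_eq_mul,
          Prod.fst_zero, Prod.snd_zero]
        ring
      rw [e, ← sq_abs (t * y.1), ← sq_abs (t * y.2)]
      nlinarith [abs_nonneg (t * y.1), abs_nonneg (t * y.2)]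
    have h1 : cr (t, 0) (0, t) ≤ cr θ.1 θ.2.1 := hmax hmem
    have h2 : cr (t, 0) (0, t) = t * t := by simp [cr]
    rw [h2] at h1
    nlinarith
  refine ⟨θ, hpos, ⟨?_, ?_⟩⟩
  · rintro _ ⟨y, hy, rfl⟩
    rw [hS] at hθS
    exact hθS y hy
  · intro θ' h'
    have hmem : ((θ.1.1 • θ'.1 + θ.1.2 • θ'.2.1, θ.2.1.1 • θ'.1 + θ.2.1.2 • θ'.2.1,
        aff θ' θ.2.2) : (ℝ × ℝ) × (ℝ × ℝ) × (ℝ × ℝ)) ∈ S := by
      rw [hS]
      intro y hy
      have h1 := h' _ ⟨y, hy, rfl⟩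
      have e : aff (θ.1.1 • θ'.1 + θ.1.2 • θ'.2.1, θ.2.1.1 • θ'.1 + θ.2.1.2 • θ'.2.1,
          aff θ' θ.2.2) y = aff θ' (aff θ y) := by
        ext
        · simp only [aff, Prod.fst_add, Prod.snd_add, Prod.smul_fst, Prod.smul_snd, smul_eq_mul]
          ring
        · simp only [aff, Prod.fst_add, Prod.snd_add, Prod.smul_fst, Prod.smul_snd, smul_eq_mul]
          ring
      rw [e]; exact h1
    have h2 : cr (θ.1.1 • θ'.1 + θ.1.2 • θ'.2.1) (θ.2.1.1 • θ'.1 + θ.2.1.2 • θ'.2.1) ≤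
        cr θ.1 θ.2.1 := hmax hmem
    have e : cr (θ.1.1 • θ'.1 + θ.1.2 • θ'.2.1) (θ.2.1.1 • θ'.1 + θ.2.1.2 • θ'.2.1) =
        cr θ.1 θ.2.1 * cr θ'.1 θ'.2.1 := by
      simp only [cr, Prod.fst_add, Prod.snd_add, Prod.smul_fst, Prod.smul_snd, smul_eq_mul]
      ring
    rw [e] at h2
    by_contra hh
    push Not at hh
    nlinarith

end Pool.Agent.KS6_95.ER
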