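import Pool.Agent.KS6_95.ER.Circle
import Pool.Agent.KS6_95.ER.Lowner

set_option autoImplicit false

/-! Rigidity for bounded charts; existence of a bounded chart. -/

namespace Pool.Agent.KS6_95.ER

open Pool.Agent.Helper87.Erdos Set Filter Topology

/-- lift of an affine equivalence -/
noncomputable def affL (T : (ℝ × ℝ) ≃ᵃ[ℝ] (ℝ × ℝ)) : V3 ≃ₗ[ℝ] V3 where
  toFun v := (T.linear v.1 + v.2 • T 0, v.2)
  map_add' v w := by
    refine Prod.ext ?_ rfl
    simp only [Prod.fst_add, Prod.snd_add, map_add]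
    module
  map_smul' c v := by
    refine Prod.ext ?_ rfl
    simp only [Prod.smul_fst, Prod.smul_snd, map_smul, RingHom.id_apply, smul_eq_mul]
    module
  invFun v := (T.linear.symm (v.1 - v.2 • T 0), v.2)
  left_inv v := by
    refine Prod.ext ?_ rfl
    simp
  right_inv v := by
    refine Prod.ext ?_ rfl
    simp

lemma aff_apply (T : (ℝ × ℝ) ≃ᵃ[ℝ] (ℝ × ℝ)) (x : ℝ × ℝ) : T x = T.linear x + T 0 := by
  have := T.map_vadd 0 x
  simpa using this

lemma affL_up (T : (ℝ × ℝ) ≃ᵃ[ℝ] (ℝ × ℝ)) (x : ℝ × ℝ) : affL T (up x) = up (T x) := by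
  rw [aff_apply T x]
  refine Prod.ext ?_ rfl
  show T.linear x + (1:ℝ) • T 0 = T.linear x + T 0
  rw [one_smul]

lemma PM_affL (T : (ℝ × ℝ) ≃ᵃ[ℝ] (ℝ × ℝ)) (M : Set (ℝ × ℝ)) : PM (affL T) M (T '' M) := by
  intro v
  have h2 : (affL T v).2 = v.2 := rfl
  by_cases hv : 0 < v.2
  · have e1 : v = v.2 • up (v.2⁻¹ • v.1) := by
      rw [smul_up, smul_smul, mul_inv_cancel₀ hv.ne', one_smul]
    have e2 : affL T v = v.2 • up (T (v.2⁻¹ • v.1)) := by
      rw [← affL_up, ← map_smul, ← e1]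
    rw [e2, cone_smul_iff hv, mem_cone_up]
    constructor
    · intro h
      exact ⟨_, h.2, rfl⟩
    · rintro ⟨y, hy, hyv⟩
      have := T.injective hyv
      exact ⟨hv, by rw [← this]; exact hy⟩
  · constructor
    · intro h; exact absurd h.1 hv
    · intro h; exact absurd (by rw [← h2]; exact h.1) hv

/-- the linear equivalence with columns `u`, `v` -/
noncomputable def linE (u v : ℝ × ℝ) (h : cr u v ≠ 0) : (ℝ × ℝ) ≃ₗ[ℝ] (ℝ × ℝ) where
  toFun x := x.1 • u + x.2 • v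
  map_add' x y := by simp only [Prod.fst_add, Prod.snd_add]; module
  map_smul' c x := by
    simp only [Prod.smul_fst, Prod.smul_snd, RingHom.id_apply, smul_eq_mul]; module
  invFun z := (cr z v / cr u v, cr u z / cr u v)
  left_inv x := by
    ext
    · simp only [cr, Prod.fst_add, Prod.snd_add, Prod.smul_fst, Prod.smul_snd, smul_eq_mul] at h ⊢
      rw [div_eq_iff h]; ring
    · simp only [cr, Prod.fst_add, Prod.snd_add, Prod.smul_fst, Prod.smul_snd, smul_eq_mul] at h ⊢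
      rw [div_eq_iff h]; ring
  right_inv z := by
    ext
    · simp only [cr, Prod.fst_add, Prod.smul_fst, smul_eq_mul] at h ⊢
      rw [div_mul_eq_mul_div, div_mul_eq_mul_div, ← add_div, div_eq_iff h]; ring
    · simp only [cr, Prod.snd_add, Prod.smul_snd, smul_eq_mul] at h ⊢
      rw [div_mul_eq_mul_div, div_mul_eq_mul_div, ← add_div, div_eq_iff h]; ring

lemma exists_affineEquiv {θ : (ℝ × ℝ) × (ℝ × ℝ) × (ℝ × ℝ)} (h : cr θ.1 θ.2.1 ≠ 0) :
    ∃ T : (ℝ × ℝ) ≃ᵃ[ℝ] (ℝ × ℝ), ∀ x, T x = aff θ x := by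
  refine ⟨(linE θ.1 θ.2.1 h).toAffineEquiv.trans (AffineEquiv.constVAdd ℝ (ℝ × ℝ) θ.2.2), ?_⟩
  intro x
  show θ.2.2 + (x.1 • θ.1 + x.2 • θ.2.1) = _
  unfold aff
  abel

/-- an open set of vectors of norm at most one consists of vectors of norm less than one -/
lemma open_sub_disc {M : Set (ℝ × ℝ)} (hM : IsOpen M) (h : ∀ y ∈ M, N2 y ≤ 1) : M ⊆ unitDisc := by
  intro y hy
  rw [mem_unitDisc]
  have hc : Continuous (fun δ : ℝ => y + δ • y) := by fun_prop
  have h1 : ∀ᶠ δ in 𝓝 (0:ℝ), y + δ • y ∈ M :=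
    (hc.tendsto 0).eventually (by simpa using hM.mem_nhds hy)
  have h2 : ∀ᶠ δ in 𝓝[>] (0:ℝ), 0 < δ := self_mem_nhdsWithin
  obtain ⟨δ, k1, k2⟩ := ((h1.filter_mono nhdsWithin_le_nhds).and h2).exists
  have h3 := h _ k1
  have e : N2 (y + δ • y) = (1 + δ) ^ 2 * (y.1 ^ 2 + y.2 ^ 2) := by
    simp only [N2, Prod.fst_add, Prod.snd_add, Prod.smul_fst, Prod.smul_snd, smul_eq_mul]; ring
  rw [e] at h3
  by_contra hh
  push Not at hh
  nlinarith

lemma bounded_unitDisc : Bornology.IsBounded unitDisc := by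
  apply (Metric.isBounded_closedBall (x := (0 : ℝ × ℝ)) (r := 1)).subset
  intro q hq
  rw [mem_unitDisc] at hq
  rw [mem_closedBall_zero_iff]
  exact coord_le (by unfold N2; exact hq.le)

lemma convex_sub {M : Set (ℝ × ℝ)} (hM : IsOpen M) (hc : Convex ℝ M) (hne : M.Nonempty)
    (h : ∀ p : ℝ × ℝ, p.1 ^ 2 + p.2 ^ 2 = 1 → p ∈ closure M) : unitDisc ⊆ M := by
  have h1 : unitDisc ⊆ closure M := by
    intro q hq
    rw [mem_unitDisc] at hq
    obtain ⟨r, hr⟩ : ∃ r, r = Real.sqrt (1 - q.2 ^ 2) := ⟨_, rfl⟩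
    have hq2 : 0 < 1 - q.2 ^ 2 := by nlinarith [sq_nonneg q.1]
    have hr0 : 0 < r := by rw [hr]; exact Real.sqrt_pos.2 hq2
    have hr2 : r ^ 2 = 1 - q.2 ^ 2 := by rw [hr, Real.sq_sqrt hq2.le]
    have a1 := h (r, q.2) (by simp only; linarith)
    have a2 := h (-r, q.2) (by simp only; linarith [hr2, neg_sq r])
    have hqr : |q.1| < r := by
      apply abs_lt_of_sq_lt_sq _ hr0.le
      rw [hr2]; linarith
    obtain ⟨b1, b2⟩ := abs_lt.1 hqr
    have := hc.closure a1 a2 (a := (r + q.1) / (2 * r)) (b := (r - q.1) / (2 * r))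
      (by apply div_nonneg <;> linarith) (by apply div_nonneg <;> linarith) (by field_simp; ring)
    have e : ((r + q.1) / (2 * r)) • ((r, q.2) : ℝ × ℝ) + ((r - q.1) / (2 * r)) • ((-r, q.2) : ℝ × ℝ) = q := by
      ext
      · simp only [Prod.fst_add, Prod.smul_fst, smul_eq_mul]; field_simp; ring
      · simp only [Prod.snd_add, Prod.smul_snd, smul_eq_mul]; field_simp; ring
    rwa [e] at this
  have h2 : unitDisc ⊆ interior (closure M) := isOpen_unitDisc.subset_interior_iff.2 h1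
  rwa [hc.interior_closure_eq_interior_of_nonempty_interior (by rwa [hM.interior_eq]),
    hM.interior_eq] at h2

/-- rigidity in a bounded chart -/
theorem bounded_case {M₀ M : Set (ℝ × ℝ)} (h0 : IsHilbertDomain M₀) {Λ₀ : V3 ≃ₗ[ℝ] V3}
    (hpm : PM Λ₀ M₀ M) (hb : Bornology.IsBounded M) (hρ : 2 ≤ erdosRatio M₀) :
    ∃ T : (ℝ × ℝ) ≃ᵃ[ℝ] (ℝ × ℝ), T '' M = unitDisc := by
  have hM := hpm.isOpen h0.isOpen
  have hc := hpm.convex h0.convex
  have hne : M.Nonempty := by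
    obtain ⟨x, hx⟩ := h0.nonempty
    exact ⟨_, hpm.mem hx⟩
  obtain ⟨θ, hθ, hmax⟩ := exists_maxPos hM hne hb
  obtain ⟨T, hT⟩ := exists_affineEquiv hθ.ne'
  have himg : aff θ '' M = T '' M := by
    ext y
    constructor
    · rintro ⟨x, hx, rfl⟩; exact ⟨x, hx, hT x⟩
    · rintro ⟨x, hx, rfl⟩; exact ⟨x, hx, (hT x).symm⟩
  rw [himg] at hmax
  have hpm1 := PM_affL T M
  have hM1 := hpm1.isOpen hM
  have hc1 := hpm1.convex hc
  have hD1 : T '' M ⊆ unitDisc := open_sub_disc hM1 hmax.sub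
  have hK : IsCompact (closure (T '' M)) := (bounded_unitDisc.subset hD1).isCompact_closure
  obtain ⟨X, Y, Z, hX, hY, hZ, nX, nY, nZ, hXY, hYZ, hXZ⟩ := three_pts hmax hK
  refine ⟨T, Subset.antisymm hD1 (convex_sub hM1 hc1 (hne.image _) ?_)⟩
  intro p hp
  by_contra hpM
  have := step3 h0 (hpm.trans hpm1) hD1 hp hpM hX hY hZ nX nY nZ hXY hYZ hXZ
  linarith

/-- a chart in which the domain is bounded -/
noncomputable def chi : V3 ≃ₗ[ℝ] V3 where
  toFun v := (v.1, v.2 - (v.1.1 + v.1.2) / 3)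
  map_add' v w := by
    refine Prod.ext rfl ?_
    simp only [Prod.fst_add, Prod.snd_add]; ring
  map_smul' c v := by
    refine Prod.ext rfl ?_
    simp only [Prod.smul_fst, Prod.smul_snd, smul_eq_mul, RingHom.id_apply]; ring
  invFun v := (v.1, v.2 + (v.1.1 + v.1.2) / 3)
  left_inv v := by
    refine Prod.ext rfl ?_
    simp
  right_inv v := by
    refine Prod.ext rfl ?_
    simp

theorem exists_chart {M : Set (ℝ × ℝ)} (hM : IsHilbertDomain M) :
    ∃ (Λ : V3 ≃ₗ[ℝ] V3) (M' : Set (ℝ × ℝ)), PM Λ M M' ∧ Bornology.IsBounded M' := by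
  obtain ⟨O, hO⟩ := hM.nonempty
  have hMo := hM.isOpen
  have hc := hM.convex
  -- supporting functionals
  have sep : ∀ q : ℝ × ℝ, q ∉ M → ∃ f : (ℝ × ℝ) →L[ℝ] ℝ, (∀ x ∈ M, f (x - O) < 1) ∧ f (q - O) = 1 := by
    intro q hq
    obtain ⟨f, hf⟩ := geometric_hahn_banach_open_point hc hMo hq
    have h1 := hf O hO
    have hpos : 0 < f q - f O := by linarith
    refine ⟨(f q - f O)⁻¹ • f, ?_, ?_⟩
    · intro x hx
      have h2 := hf x hx
      show (f q - f O)⁻¹ * f (x - O) < 1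
      rw [map_sub, inv_mul_lt_iff₀ hpos]; linarith
    · show (f q - f O)⁻¹ * f (q - O) = 1
      rw [map_sub]
      exact inv_mul_cancel₀ hpos.ne'
  obtain ⟨q1, hq1⟩ : ∃ q, q ∉ M := by
    by_contra hh
    push Not at hh
    exact hM.ne_univ (eq_univ_of_forall hh)
  obtain ⟨f, hf1, hf2⟩ := sep q1 hq1
  obtain ⟨v, hv0, hfv⟩ : ∃ v : ℝ × ℝ, v ≠ 0 ∧ f v = 0 := by
    refine ⟨(-f (0, 1), f (1, 0)), ?_, ?_⟩
    · intro h
      have h1 : -f (0, 1) = 0 := congrArg Prod.fst h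
      have h2 : f (1, 0) = 0 := congrArg Prod.snd h
      have : q1 - O = (q1 - O).1 • ((1, 0) : ℝ × ℝ) + (q1 - O).2 • ((0, 1) : ℝ × ℝ) := by
        ext <;> simp
      rw [this, map_add, map_smul, map_smul, h2, neg_eq_zero.1 h1] at hf2
      simp at hf2
    · have : ((-f (0, 1), f (1, 0)) : ℝ × ℝ) = (-f (0, 1)) • ((1, 0) : ℝ × ℝ) +
          (f (1, 0)) • ((0, 1) : ℝ × ℝ) := by
        ext <;> simp
      rw [this, map_add, map_smul, map_smul, smul_eq_mul, smul_eq_mul]; ring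
  obtain ⟨w, hw, hfw⟩ : ∃ w : ℝ × ℝ, 0 < gg M O w ∧ f w = 0 := by
    have h1 := nn_pos hM hO hv0
    unfold nn at h1
    by_cases h2 : 0 < gg M O v
    · exact ⟨v, h2, hfv⟩
    · refine ⟨-v, by linarith, by rw [map_neg, hfv, neg_zero]⟩
  have hq2 : O + (gg M O w)⁻¹ • w ∉ M := by
    rw [← gg_lt_one_iff hMo hc hO, gg_smul (inv_nonneg.2 hw.le), inv_mul_cancel₀ hw.ne']
    exact lt_irrefl _
  obtain ⟨g, hg1, hg2⟩ := sep _ hq2
  rw [add_sub_cancel_left, map_smul, smul_eq_mul] at hg2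
  have hgw : g w ≠ 0 := by
    intro h
    rw [h, mul_zero] at hg2
    exact zero_ne_one hg2
  -- determinant
  have hcr : cr ((f (1, 0), g (1, 0)) : ℝ × ℝ) (f (0, 1), g (0, 1)) ≠ 0 := by
    intro h
    simp only [cr] at h
    have ef : f w = w.1 * f (1, 0) + w.2 * f (0, 1) := by
      have : w = w.1 • ((1, 0) : ℝ × ℝ) + w.2 • ((0, 1) : ℝ × ℝ) := by ext <;> simp
      conv_lhs => rw [this]
      rw [map_add, map_smul, map_smul, smul_eq_mul, smul_eq_mul]
    have eg : g w = w.1 * g (1, 0) + w.2 * g (0, 1) := by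
      have : w = w.1 • ((1, 0) : ℝ × ℝ) + w.2 • ((0, 1) : ℝ × ℝ) := by ext <;> simp
      conv_lhs => rw [this]
      rw [map_add, map_smul, map_smul, smul_eq_mul, smul_eq_mul]
    rw [hfw] at ef
    have h1 : f (1, 0) * g w = 0 := by
      rw [eg]
      have : f (1, 0) * (w.1 * g (1, 0) + w.2 * g (0, 1)) =
          g (1, 0) * (w.1 * f (1, 0) + w.2 * f (0, 1)) + w.2 * (f (1, 0) * g (0, 1) - g (1, 0) * f (0, 1)) := by
        ring
      rw [this, ← ef]
      have : f (1, 0) * g (0, 1) - g (1, 0) * f (0, 1) = 0 := by linarith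
      rw [this]; ring
    have h2 : f (0, 1) * g w = 0 := by
      rw [eg]
      have : f (0, 1) * (w.1 * g (1, 0) + w.2 * g (0, 1)) =
          g (0, 1) * (w.1 * f (1, 0) + w.2 * f (0, 1)) - w.1 * (f (1, 0) * g (0, 1) - g (1, 0) * f (0, 1)) := by
        ring
      rw [this, ← ef]
      have : f (1, 0) * g (0, 1) - g (1, 0) * f (0, 1) = 0 := by linarith
      rw [this]; ring
    have f1 : f (1, 0) = 0 := (mul_eq_zero.1 h1).resolve_right hgw
    have f2 : f (0, 1) = 0 := (mul_eq_zero.1 h2).resolve_right hgw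
    have : q1 - O = (q1 - O).1 • ((1, 0) : ℝ × ℝ) + (q1 - O).2 • ((0, 1) : ℝ × ℝ) := by
      ext <;> simp
    rw [this, map_add, map_smul, map_smul, f1, f2] at hf2
    simp at hf2
  obtain ⟨T, hT⟩ := exists_affineEquiv
    (θ := ((f (1, 0), g (1, 0)), (f (0, 1), g (0, 1)), (-f O, -g O))) hcr
  have hT' : ∀ x, T x = (f (x - O), g (x - O)) := by
    intro x
    have ex : x = x.1 • ((1, 0) : ℝ × ℝ) + x.2 • ((0, 1) : ℝ × ℝ) := by ext <;> simp
    have ef : f x = x.1 * f (1, 0) + x.2 * f (0, 1) := by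
      conv_lhs => rw [ex]
      rw [map_add, map_smul, map_smul, smul_eq_mul, smul_eq_mul]
    have eg : g x = x.1 * g (1, 0) + x.2 * g (0, 1) := by
      conv_lhs => rw [ex]
      rw [map_add, map_smul, map_smul, smul_eq_mul, smul_eq_mul]
    rw [hT, map_sub, map_sub, ef, eg]
    ext
    · simp only [aff, Prod.fst_add, Prod.smul_fst, smul_eq_mul]; ring
    · simp only [aff, Prod.snd_add, Prod.smul_snd, smul_eq_mul]; ring
  have hpm1 := PM_affL T M
  have hlt : ∀ y ∈ T '' M, y.1 < 1 ∧ y.2 < 1 := by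
    rintro _ ⟨x, hx, rfl⟩
    rw [hT']
    exact ⟨hf1 x hx, hg1 x hx⟩
  have hpm2 : PM chi (T '' M) (img chi (T '' M)) := PM_img (fun v hv => by
    obtain ⟨h1, h2⟩ := hv
    obtain ⟨h3, h4⟩ := hlt _ h2
    show 0 < v.2 - (v.1.1 + v.1.2) / 3
    simp only [Prod.smul_fst, Prod.smul_snd, smul_eq_mul] at h3 h4
    rw [inv_mul_lt_iff₀ h1] at h3 h4
    linarith)
  refine ⟨(affL T).trans chi, img chi (T '' M), hpm1.trans hpm2, ?_⟩
  apply (Metric.isBounded_closedBall (x := (0 : ℝ × ℝ)) (r := 6)).subset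
  intro Y hY
  obtain ⟨y, hy⟩ : ∃ y, y = pr chi.symm Y := ⟨_, rfl⟩
  have hyM : y ∈ T '' M := by rw [hy]; exact hpm2.symm.mem hY
  have hYy : pr chi y = Y := by rw [hy]; exact hpm2.pr_pr_symm hY
  obtain ⟨h3, h4⟩ := hlt y hyM
  have hd : 0 < 1 - (y.1 + y.2) / 3 := by linarith
  rw [mem_closedBall_zero_iff, ← hYy]
  have e : pr chi y = (1 - (y.1 + y.2) / 3)⁻¹ • y := rfl
  rw [e, norm_smul, norm_inv, Real.norm_eq_abs, abs_of_pos hd, inv_mul_le_iff₀ hd]
  refine norm_prod_le_iff.2 ⟨?_, ?_⟩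
  · rw [Real.norm_eq_abs, abs_le]
    constructor <;> linarith
  · rw [Real.norm_eq_abs, abs_le]
    constructor <;> linarith

end Pool.Agent.KS6_95.ER
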