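import Pool.Agent.KS6_95.ER.Triple

set_option autoImplicit false

/-! If `M` is inside the disc, has three contact points with the circle and some point of the
circle is not a contact point, then the Erdős ratio is smaller than `2`. -/

namespace Pool.Agent.KS6_95.ER

open Pool.Agent.Helper87.Erdos Set Filter Topology

/-- the rotation carrying the unit vector `p` to `(0, 1)` -/
noncomputable def rot (p : ℝ × ℝ) (hp : p.1 ^ 2 + p.2 ^ 2 = 1) : V3 ≃ₗ[ℝ] V3 where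
  toFun v := ((p.2 * v.1.1 - p.1 * v.1.2, p.1 * v.1.1 + p.2 * v.1.2), v.2)
  map_add' v w := by
    refine Prod.ext (Prod.ext ?_ ?_) ?_ <;>
    simp only [Prod.fst_add, Prod.snd_add] <;> ring
  map_smul' c v := by
    refine Prod.ext (Prod.ext ?_ ?_) ?_ <;>
    simp only [Prod.smul_fst, Prod.smul_snd, smul_eq_mul, RingHom.id_apply] <;> ring
  invFun v := ((p.2 * v.1.1 + p.1 * v.1.2, -p.1 * v.1.1 + p.2 * v.1.2), v.2)
  left_inv v := by
    refine Prod.ext (Prod.ext ?_ ?_) ?_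
    · simp only
      linear_combination v.1.1 * hp
    · simp only
      linear_combination v.1.2 * hp
    · rfl
  right_inv v := by
    refine Prod.ext (Prod.ext ?_ ?_) ?_
    · simp only
      linear_combination v.1.1 * hp
    · simp only
      linear_combination v.1.2 * hp
    · rfl

lemma pr_rot {p : ℝ × ℝ} (hp : p.1 ^ 2 + p.2 ^ 2 = 1) (X : ℝ × ℝ) :
    pr (rot p hp) X = (p.2 * X.1 - p.1 * X.2, p.1 * X.1 + p.2 * X.2) := by
  simp [pr, rot, up]

lemma pr_rot_symm {p : ℝ × ℝ} (hp : p.1 ^ 2 + p.2 ^ 2 = 1) (X : ℝ × ℝ) :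
    pr (rot p hp).symm X = (p.2 * X.1 + p.1 * X.2, -p.1 * X.1 + p.2 * X.2) := by
  simp only [pr]
  show (1:ℝ)⁻¹ • ((p.2 * X.1 + p.1 * X.2, -p.1 * X.1 + p.2 * X.2) : ℝ × ℝ) = _
  simp

lemma th_surj {X : ℝ × ℝ} (hX : X.1 ^ 2 + X.2 ^ 2 = 1) (hne : X ≠ (0, 1)) : ∃ s, th s = X := by
  have h1 : X.2 ≠ 1 := by
    intro h
    apply hne
    rw [h] at hX
    have : X.1 = 0 := by nlinarith [sq_nonneg X.1]
    exact Prod.ext this h
  have h2 : 1 - X.2 ≠ 0 := fun h => h1 (by linarith)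
  refine ⟨X.1 / (1 - X.2), ?_⟩
  have hX1 : X.1 ^ 2 = (1 - X.2) * (1 + X.2) := by linarith
  have e : (X.1 / (1 - X.2)) ^ 2 + 1 = 2 / (1 - X.2) := by
    rw [div_pow, hX1]; field_simp; ring
  have e2 : (X.1 / (1 - X.2)) ^ 2 - 1 = 2 * X.2 / (1 - X.2) := by
    rw [div_pow, hX1]; field_simp; ring
  unfold th
  rw [e, e2]
  ext
  · simp only; field_simp
  · simp only; field_simp

lemma th_cont : Continuous th := by
  unfold th
  have h : ∀ s : ℝ, s ^ 2 + 1 ≠ 0 := fun s => by positivity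
  exact (Continuous.div (by fun_prop) (by fun_prop) h).prodMk
    (Continuous.div (by fun_prop) (by fun_prop) h)

lemma th_injective : Function.Injective th := by
  intro s t h
  have h1 : 2 * s / (s ^ 2 + 1) = 2 * t / (t ^ 2 + 1) := congrArg Prod.fst h
  have h2 : (s ^ 2 - 1) / (s ^ 2 + 1) = (t ^ 2 - 1) / (t ^ 2 + 1) := congrArg Prod.snd h
  have ps : 0 < s ^ 2 + 1 := by positivity
  have pt : 0 < t ^ 2 + 1 := by positivity
  rw [div_eq_div_iff ps.ne' pt.ne'] at h1 h2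
  have h3 : s ^ 2 = t ^ 2 := by linarith
  rw [h3] at h1
  have := mul_right_cancel₀ pt.ne' h1
  linarith

theorem step3 {M₀ M : Set (ℝ × ℝ)} (h0 : IsHilbertDomain M₀) {Λ₀ : V3 ≃ₗ[ℝ] V3}
    (hpm : PM Λ₀ M₀ M) (hD : M ⊆ unitDisc) {p : ℝ × ℝ} (hp : p.1 ^ 2 + p.2 ^ 2 = 1)
    (hpM : p ∉ closure M) {X Y Z : ℝ × ℝ} (hX : X ∈ closure M) (hY : Y ∈ closure M)
    (hZ : Z ∈ closure M) (nX : X.1 ^ 2 + X.2 ^ 2 = 1) (nY : Y.1 ^ 2 + Y.2 ^ 2 = 1)
    (nZ : Z.1 ^ 2 + Z.2 ^ 2 = 1) (hXY : X ≠ Y) (hYZ : Y ≠ Z) (hXZ : X ≠ Z) :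
    erdosRatio M₀ < 2 := by
  obtain ⟨Λ, hΛ⟩ : ∃ Λ, Λ = rot p hp := ⟨_, rfl⟩
  have hpm1 : PM Λ M (img Λ M) := PM_img (fun v hv => by
    rw [hΛ]; exact hv.1)
  obtain ⟨M₁, hM₁⟩ : ∃ M₁, M₁ = img Λ M := ⟨_, rfl⟩
  rw [← hM₁] at hpm1
  have hprn : ∀ V : ℝ × ℝ, (pr Λ V).1 ^ 2 + (pr Λ V).2 ^ 2 = V.1 ^ 2 + V.2 ^ 2 := by
    intro V
    rw [hΛ, pr_rot]
    simp only
    linear_combination (V.1 ^ 2 + V.2 ^ 2) * hp
  have hD1 : M₁ ⊆ unitDisc := by
    intro V hV
    have h1 := hD (hpm1.symm.mem hV)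
    rw [mem_unitDisc] at h1 ⊢
    rw [← hprn, hpm1.pr_pr_symm hV] at h1
    exact h1
  have hinf : ((0, 1) : ℝ × ℝ) ∉ closure M₁ := by
    intro h
    have h1 := (closure_transport hpm1.symm hD h).2
    rw [hΛ, pr_rot_symm] at h1
    apply hpM
    simpa using h1
  have key : ∀ V : ℝ × ℝ, V ∈ closure M → V.1 ^ 2 + V.2 ^ 2 = 1 →
      ∃ s, th s = pr Λ V ∧ th s ∈ closure M₁ := by
    intro V hV nV
    have h1 := (closure_transport hpm1 hD1 hV).2
    obtain ⟨s, hs⟩ := th_surj (X := pr Λ V) (by rw [hprn]; exact nV)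
      (fun h => hinf (by rw [← h]; exact h1))
    exact ⟨s, hs, by rw [hs]; exact h1⟩
  have hinj : ∀ V W : ℝ × ℝ, V ∈ closure M → W ∈ closure M → pr Λ V = pr Λ W → V = W := by
    intro V W hV hW h
    have h1 := pr_symm_pr (Λ := Λ) (X := V) (closure_transport hpm1 hD1 hV).1.ne'
    have h2 := pr_symm_pr (Λ := Λ) (X := W) (closure_transport hpm1 hD1 hW).1.ne'
    rw [← h1, ← h2, h]
  obtain ⟨s1, e1, m1⟩ := key X hX nX
  obtain ⟨s2, e2, m2⟩ := key Y hY nY
  obtain ⟨s3', e3, m3⟩ := key Z hZ nZ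
  have d12 : s1 ≠ s2 := by
    rintro rfl
    exact hXY (hinj X Y hX hY (by rw [← e1, ← e2]))
  have d23 : s2 ≠ s3' := by
    rintro rfl
    exact hYZ (hinj Y Z hY hZ (by rw [← e2, ← e3]))
  have d13 : s1 ≠ s3' := by
    rintro rfl
    exact hXZ (hinj X Z hX hZ (by rw [← e1, ← e3]))
  -- the set of parameters is compact
  have hbd : Bornology.IsBounded unitDisc := by
    apply (Metric.isBounded_closedBall (x := (0 : ℝ × ℝ)) (r := 1)).subset
    intro q hq
    rw [mem_unitDisc] at hq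
    rw [mem_closedBall_zero_iff, Prod.norm_def]
    apply max_le
    · rw [Real.norm_eq_abs]
      apply abs_le_of_sq_le_sq _ zero_le_one |>.trans le_rfl
      nlinarith [sq_nonneg q.2]
    · rw [Real.norm_eq_abs]
      apply abs_le_of_sq_le_sq _ zero_le_one |>.trans le_rfl
      nlinarith [sq_nonneg q.1]
  have hcomp : IsCompact (closure M₁) := (hbd.subset hD1).isCompact_closure
  have hcl : ∀ V ∈ closure M₁, V.1 ^ 2 + V.2 ^ 2 ≤ 1 := by
    intro V hV
    have hc : IsClosed {p : ℝ × ℝ | p.1^2 + p.2^2 ≤ 1} :=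
      isClosed_le (by fun_prop) continuous_const
    exact closure_minimal (fun q hq => ((mem_unitDisc q).1 (hD1 hq)).le) hc hV
  obtain ⟨V0, hV0, hmin⟩ := hcomp.exists_isMinOn ⟨_, m1⟩
    (f := fun V : ℝ × ℝ => 1 - V.2) (by fun_prop)
  have hV0pos : 0 < 1 - V0.2 := by
    have h1 := hcl V0 hV0
    have h2 : V0.2 ≤ 1 := by nlinarith [sq_nonneg V0.1, sq_nonneg (V0.2 - 1)]
    rcases eq_or_lt_of_le h2 with h | h
    · exfalso
      rw [h] at h1
      have : V0.1 = 0 := by nlinarith [sq_nonneg V0.1]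
      apply hinf
      have e : V0 = (0, 1) := Prod.ext this h
      rwa [← e]
    · linarith
  obtain ⟨S, hS⟩ : ∃ S : Set ℝ, S = {s | th s ∈ closure M₁} := ⟨_, rfl⟩
  have hSc : IsClosed S := by
    rw [hS]; exact isClosed_closure.preimage th_cont
  have hSb : Bornology.IsBounded S := by
    apply (Metric.isBounded_closedBall (x := (0 : ℝ)) (r := Real.sqrt (2 / (1 - V0.2)))).subset
    intro s hs
    rw [hS] at hs
    have h1 : 1 - V0.2 ≤ 1 - (th s).2 := hmin hs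
    have h2 : 1 - (th s).2 = 2 / (s ^ 2 + 1) := by
      simp only [th]
      field_simp
      ring
    rw [h2, le_div_iff₀ (by positivity)] at h1
    rw [mem_closedBall_zero_iff, Real.norm_eq_abs]
    apply Real.abs_le_sqrt
    rw [le_div_iff₀ hV0pos]
    nlinarith
  have hScomp : IsCompact S := Metric.isCompact_of_isClosed_isBounded hSc hSb
  have i1 : s1 ∈ S := by rw [hS]; exact m1
  have i2 : s2 ∈ S := by rw [hS]; exact m2
  have i3 : s3' ∈ S := by rw [hS]; exact m3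
  obtain ⟨c, hcS, hcmin⟩ := hScomp.exists_isLeast ⟨_, i1⟩
  obtain ⟨b, hbS, hbmax⟩ := hScomp.exists_isGreatest ⟨_, i1⟩
  obtain ⟨a, haS, hac, hab⟩ : ∃ a ∈ S, a ≠ c ∧ a ≠ b := by
    by_contra hh
    push Not at hh
    have j1 := hh s1 i1
    have j2 := hh s2 i2
    have j3 := hh s3' i3
    by_cases k1 : s1 = c
    · by_cases k2 : s2 = c
      · exact d12 (k1.trans k2.symm)
      · by_cases k3 : s3' = c
        · exact d13 (k1.trans k3.symm)
        · exact d23 ((j2 k2).trans (j3 k3).symm)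
    · by_cases k2 : s2 = c
      · by_cases k3 : s3' = c
        · exact d23 (k2.trans k3.symm)
        · exact d13 ((j1 k1).trans (j3 k3).symm)
      · exact d12 ((j1 k1).trans (j2 k2).symm)
  have hca : c < a := lt_of_le_of_ne (hcmin haS) (Ne.symm hac)
  have hab' : a < b := lt_of_le_of_ne (hbmax haS) hab
  rw [hS] at haS hbS hcS
  obtain ⟨Λ', M', hpm', hD', hA', hB', hC', hN'⟩ := step hD1 hinf hca hab' haS hbS hcS
    (fun s hs => ⟨hcmin (by rw [hS]; exact hs), hbmax (by rw [hS]; exact hs)⟩)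
  exact step2 h0 ((hpm.trans hpm1).trans hpm') hD' hA' hB' hC' hN'

end Pool.Agent.KS6_95.ER
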