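import Pool.Agent.KS6_95.ER.Proj

set_option autoImplicit false

/-! The estimate in normalised position: `M` is inside the unit disc, the vertices of a regular
triangle are contact points, and the point opposite to one of them is not. -/

namespace Pool.Agent.KS6_95.ER

open Pool.Agent.Helper87.Erdos Set Filter Topology

/-- the three vertices of a regular triangle -/
noncomputable def vA : ℝ × ℝ := (0, 1)
noncomputable def vB : ℝ × ℝ := (-(Real.sqrt 3 / 2), -1/2)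
noncomputable def vC : ℝ × ℝ := (Real.sqrt 3 / 2, -1/2)

lemma s3 : Real.sqrt 3 ^ 2 = 3 := Real.sq_sqrt (by norm_num)
lemma s3pos : 0 < Real.sqrt 3 := Real.sqrt_pos.2 (by norm_num)

variable {M : Set (ℝ × ℝ)}

lemma tanh_ge (hM : IsOpen M) (hc : Convex ℝ M) {O v : ℝ × ℝ} (hO : O ∈ M) (hv : O + v ∈ M)
    {p q : ℝ} (hp : p ≤ gg M O v) (hq : q ≤ gg M O (-v)) (hq0 : 0 ≤ q) :
    (p + q) / (2 + q - p) ≤ Real.tanh (hdist M O (O + v)) := by
  rw [tanh_hdist hM hc hO hv]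
  unfold nn
  have h1 : gg M O v < 1 := (gg_lt_one_iff hM hc hO v).2 hv
  have h2 := gg_nonneg (M := M) (O := O) (-v)
  have h3 : (gg M O v + gg M O (-v)) / 2 / (1 + (gg M O (-v) - gg M O v) / 2) =
      (gg M O v + gg M O (-v)) / (2 + gg M O (-v) - gg M O v) := by
    have : 1 + (gg M O (-v) - gg M O v) / 2 = (2 + gg M O (-v) - gg M O v) / 2 := by ring
    rw [this, div_div_div_cancel_right₀ two_ne_zero]
  rw [h3, div_le_div_iff₀ (by linarith) (by linarith)]
  nlinarith [mul_nonneg (sub_nonneg.2 hp) (by linarith : (0:ℝ) ≤ 1 + q),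
    mul_nonneg (sub_nonneg.2 hq) (by linarith : (0:ℝ) ≤ 1 - p)]

lemma gg_ge (hM : IsOpen M) (hD : M ⊆ unitDisc) (h0 : (0 : ℝ × ℝ) ∈ M) (v : ℝ × ℝ) :
    Real.sqrt (v.1 ^ 2 + v.2 ^ 2) ≤ gg M 0 v := by
  have h1 : gg unitDisc 0 v ≤ gg M 0 v := by
    unfold gg
    exact gauge_mono (absorbent_nhds_zero (shift_nhds hM h0)) (image_mono hD) v
  have h2 := gg_disc (O := 0) (hD h0) v
  rw [h2] at h1
  have e : (dot 0 v + Real.sqrt (qf 0 v)) / (1 - (0 : ℝ × ℝ).1 ^ 2 - (0 : ℝ × ℝ).2 ^ 2) =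
      Real.sqrt (v.1 ^ 2 + v.2 ^ 2) := by
    simp [dot, qf]
  rwa [e] at h1

lemma tanh_ge_line (hM : IsOpen M) (hc : Convex ℝ M) (hD : M ⊆ unitDisc) (h0 : (0 : ℝ × ℝ) ∈ M)
    {F : ℝ × ℝ} (hF : F ∈ M) {α β h : ℝ} (hαβ : α ^ 2 + β ^ 2 = 1) (hh : 0 ≤ h)
    (hl : α * F.1 + β * F.2 = h) : h ≤ Real.tanh (hdist M 0 F) := by
  have h1 : h ≤ Real.sqrt (F.1 ^ 2 + F.2 ^ 2) := by
    apply Real.le_sqrt_of_sq_le
    have : F.1 ^ 2 + F.2 ^ 2 - (α * F.1 + β * F.2) ^ 2 = (β * F.1 - α * F.2) ^ 2 := by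
      linear_combination (-(F.1 ^ 2 + F.2 ^ 2)) * hαβ
    rw [← hl]
    nlinarith [sq_nonneg (β * F.1 - α * F.2)]
  have g1 := gg_ge hM hD h0 F
  have g2 := gg_ge hM hD h0 (-F)
  have e2 : (-F).1 ^ 2 + (-F).2 ^ 2 = F.1 ^ 2 + F.2 ^ 2 := by simp
  rw [e2] at g2
  have := tanh_ge hM hc h0 (v := F) (by rwa [zero_add]) (h1.trans g1) (h1.trans g2) hh
  rw [zero_add] at this
  have e : (h + h) / (2 + h - h) = h := by ring
  rwa [e] at this

lemma exists_kappa (hM : IsOpen M) (hc : Convex ℝ M) (hD : M ⊆ unitDisc) (h0 : (0 : ℝ × ℝ) ∈ M)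
    (hN : ((0, -1) : ℝ × ℝ) ∉ closure M) :
    ∃ κ : ℝ, 0 < κ ∧ κ ≤ 1/2 ∧ ∀ x : ℝ, 1/2 + κ ≤ gg M 0 (x, -1/2) := by
  have hcont : Continuous (fun x : ℝ => gg M 0 (x, -1/2)) :=
    (gg_continuous hM hc h0).comp (by fun_prop)
  obtain ⟨x0, hx0, hmin⟩ := (isCompact_Icc (a := (-1:ℝ)) (b := 1)).exists_isMinOn
    ⟨0, by constructor <;> norm_num⟩ hcont.continuousOn
  have hge : ∀ x : ℝ, Real.sqrt (x ^ 2 + 1/4) ≤ gg M 0 (x, -1/2) := by
    intro x
    have := gg_ge hM hD h0 (x, -1/2)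
    have e : ((x, -1/2) : ℝ × ℝ).1 ^ 2 + ((x, -1/2) : ℝ × ℝ).2 ^ 2 = x ^ 2 + 1/4 := by
      norm_num
    rwa [e] at this
  have hpos : 1/2 < gg M 0 (x0, -1/2) := by
    by_cases hx : x0 = 0
    · subst hx
      have h1 : ¬ gg M 0 (0, -1) ≤ 1 := by
        unfold gg
        rw [gauge_le_one_iff_mem_closure (shift_convex hc 0) (shift_nhds hM h0)]
        simpa using hN
      push Not at h1
      have e : ((0, -1/2) : ℝ × ℝ) = (1/2 : ℝ) • (0, -1) := by
        ext <;> norm_num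
      rw [e, gg_smul (by norm_num)]
      linarith
    · refine lt_of_lt_of_le ?_ (hge x0)
      rw [Real.lt_sqrt (by norm_num)]
      have : 0 < x0 ^ 2 := by positivity
      linarith
  refine ⟨min (gg M 0 (x0, -1/2) - 1/2) (1/2), by apply lt_min <;> linarith, min_le_right _ _, ?_⟩
  intro x
  by_cases hx : x ∈ Icc (-1:ℝ) 1
  · have h1 : gg M 0 (x0, -1/2) ≤ gg M 0 (x, -1/2) := hmin hx
    have h2 := min_le_left (gg M 0 (x0, -1/2) - 1/2) (1/2)
    linarith
  · have h2 := min_le_right (gg M 0 (x0, -1/2) - 1/2) (1/2)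
    have h3 : 1 ≤ Real.sqrt (x ^ 2 + 1/4) := by
      apply Real.le_sqrt_of_sq_le
      have : 1 < x ^ 2 := by
        rw [mem_Icc, not_and_or] at hx
        rcases hx with h | h
        · push Not at h; nlinarith
        · push Not at h; nlinarith
      linarith
    linarith [hge x]

lemma zero_mem (hM : IsOpen M) (hc : Convex ℝ M) (hA : vA ∈ closure M) (hB : vB ∈ closure M)
    (hC : vC ∈ closure M) : (0 : ℝ × ℝ) ∈ M := by
  by_contra hn
  obtain ⟨f, hf⟩ := geometric_hahn_banach_open_point hc hM hn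
  rw [map_zero] at hf
  have hcl : ∀ x ∈ closure M, f x ≤ 0 := by
    intro x hx
    have : closure M ⊆ {x | f x ≤ 0} :=
      closure_minimal (fun y hy => (hf y hy).le) (isClosed_le f.continuous continuous_const)
    exact this hx
  have a := hcl _ hA
  have b := hcl _ hB
  have c := hcl _ hC
  have e : f vA + f vB + f vC = 0 := by
    rw [← map_add, ← map_add]
    have : vA + vB + vC = 0 := by
      ext
      · simp [vA, vB, vC]
      · simp [vA, vB, vC]; norm_num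
    rw [this, map_zero]
  have a0 : f vA = 0 := by linarith
  have b0 : f vB = 0 := by linarith
  have c0 : f vC = 0 := by linarith
  have d0 : f (1, 0) = 0 := by
    have : vC - vB = Real.sqrt 3 • ((1, 0) : ℝ × ℝ) := by
      ext
      · simp [vB, vC]
      · simp [vB, vC]
    have h := congrArg f this
    rw [map_sub, b0, c0, map_smul, smul_eq_mul, sub_zero] at h
    rcases mul_eq_zero.1 h.symm with h' | h'
    · exact absurd h' s3pos.ne'
    · exact h'
  have hne : M.Nonempty := by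
    rw [← closure_nonempty_iff]; exact ⟨_, hA⟩
  obtain ⟨x, hx⟩ := hne
  have hx' := hf x hx
  have : x = x.1 • ((1, 0) : ℝ × ℝ) + x.2 • vA := by
    ext <;> simp [vA]
  rw [this, map_add, map_smul, map_smul, d0, a0] at hx'
  simp at hx'

lemma smul_mem' (hM : IsOpen M) (hc : Convex ℝ M) (h0 : (0 : ℝ × ℝ) ∈ M) {V : ℝ × ℝ}
    (hV : V ∈ closure M) {t : ℝ} (ht : 0 < t) (ht1 : t < 1) : t • V ∈ M := by
  have := hc.combo_interior_closure_mem_interior (x := 0) (y := V) (by rwa [hM.interior_eq]) hV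
    (a := 1 - t) (b := t) (by linarith) ht.le (by ring)
  rwa [smul_zero, zero_add, hM.interior_eq] at this

lemma tanh_lt_one' (x : ℝ) : Real.tanh x < 1 := (Real.tanh_bijOn.mapsTo (mem_univ x)).2

theorem key (hM : IsOpen M) (hc : Convex ℝ M) (hD : M ⊆ unitDisc) (hA : vA ∈ closure M)
    (hB : vB ∈ closure M) (hC : vC ∈ closure M) (hN : ((0, -1) : ℝ × ℝ) ∉ closure M) :
    ∃ t : ℝ, 0 < t ∧ t < 1 ∧ (0 : ℝ × ℝ) ∈ M ∧ t • vA ∈ M ∧ t • vB ∈ M ∧ t • vC ∈ M ∧
      ∀ P Q R : ℝ × ℝ, IsFoot M 0 (t • vB) (t • vC) P → IsFoot M 0 (t • vC) (t • vA) Q →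
        IsFoot M 0 (t • vA) (t • vB) R → IsConfig M (t • vA) (t • vB) (t • vC) 0 P Q R ∧
          configRatio M (t • vA) (t • vB) (t • vC) 0 P Q R < 2 := by
  have h0 := zero_mem hM hc hA hB hC
  obtain ⟨κ, hκ0, hκ1, hκ⟩ := exists_kappa hM hc hD h0 hN
  obtain ⟨t, ht⟩ : ∃ t, t = 6 / (6 + κ) := ⟨_, rfl⟩
  have ht0 : 0 < t := by rw [ht]; positivity
  have ht1 : t < 1 := by rw [ht, div_lt_one (by positivity)]; linarith
  have ht3 : 3 < t * (3 + κ) := by
    rw [ht, div_mul_eq_mul_div, lt_div_iff₀ (by positivity)]; nlinarith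
  have mA := smul_mem' hM hc h0 hA ht0 ht1
  have mB := smul_mem' hM hc h0 hB ht0 ht1
  have mC := smul_mem' hM hc h0 hC ht0 ht1
  refine ⟨t, ht0, ht1, h0, mA, mB, mC, ?_⟩
  intro P Q R hP hQ hR
  have s := s3
  have sp := s3pos
  refine ⟨⟨mA, mB, mC, ?_, ⟨1/3, 1/3, 1/3, by norm_num, by norm_num, by norm_num, by norm_num, ?_⟩,
    hP, hQ, hR⟩, ?_⟩
  · apply not_collinear_of_cr
    have : cr (t • vB - t • vA) (t • vC - t • vA) = t ^ 2 * (3 * Real.sqrt 3 / 2) := by
      simp only [cr, vA, vB, vC, Prod.smul_mk, Prod.mk_sub_mk, smul_eq_mul]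
      ring
    rw [this]
    positivity
  · ext
    · simp [vA, vB, vC]
    · simp [vA, vB, vC]; ring
  · -- the feet
    have hPl : P.2 = -(t / 2) := by
      have := hP.1
      rw [mem_affineSpan_pair_iff_exists_lineMap_eq] at this
      obtain ⟨r, hr⟩ := this
      rw [← hr, AffineMap.lineMap_apply]
      simp [vB, vC]
      ring
    have hQl : (Real.sqrt 3 / 2) * Q.1 + (1/2) * Q.2 = t / 2 := by
      have := hQ.1
      rw [mem_affineSpan_pair_iff_exists_lineMap_eq] at this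
      obtain ⟨r, hr⟩ := this
      rw [← hr, AffineMap.lineMap_apply]
      simp only [vadd_eq_add, vsub_eq_sub, vA, vC, Prod.smul_mk, Prod.mk_sub_mk, Prod.mk_add_mk,
        smul_eq_mul]
      ring_nf
      rw [s]
      ring
    have hRl : (-(Real.sqrt 3 / 2)) * R.1 + (1/2) * R.2 = t / 2 := by
      have := hR.1
      rw [mem_affineSpan_pair_iff_exists_lineMap_eq] at this
      obtain ⟨r, hr⟩ := this
      rw [← hr, AffineMap.lineMap_apply]
      simp only [vadd_eq_add, vsub_eq_sub, vA, vB, Prod.smul_mk, Prod.mk_sub_mk, Prod.mk_add_mk,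
        smul_eq_mul]
      ring_nf
      rw [s]
      ring
    have tQ := tanh_ge_line hM hc hD h0 hQ.2.1 (by rw [div_pow, s]; norm_num)
      (by positivity : (0:ℝ) ≤ t / 2) hQl
    have tR := tanh_ge_line hM hc hD h0 hR.2.1 (by rw [neg_sq, div_pow, s]; norm_num)
      (by positivity : (0:ℝ) ≤ t / 2) hRl
    have tP : t * (1 + κ) / 2 ≤ Real.tanh (hdist M 0 P) := by
      have g1 : t * (1/2 + κ) ≤ gg M 0 P := by
        have e : P = t • ((P.1 / t, -1/2) : ℝ × ℝ) := by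
          ext
          · simp; field_simp
          · simp [hPl]; ring
        rw [e, gg_smul ht0.le]
        exact mul_le_mul_of_nonneg_left (hκ _) ht0.le
      have g2 : t / 2 ≤ gg M 0 (-P) := by
        refine le_trans ?_ (gg_ge hM hD h0 (-P))
        apply Real.le_sqrt_of_sq_le
        simp [hPl]
        nlinarith [sq_nonneg P.1]
      have g3 := tanh_ge hM hc h0 (v := P) (by rw [zero_add]; exact hP.2.1) g1 g2 (by positivity)
      rw [zero_add] at g3
      refine le_trans ?_ g3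
      have g4 : gg M 0 P < 1 := by
        rw [gg_lt_one_iff hM hc h0, zero_add]; exact hP.2.1
      rw [div_le_div_iff₀ (by norm_num) (by nlinarith)]
      nlinarith [mul_pos ht0 hκ0, mul_pos (mul_pos ht0 hκ0) ht0]
    unfold configRatio
    have n1 := tanh_lt_one' (hdist M 0 (t • vA))
    have n2 := tanh_lt_one' (hdist M 0 (t • vB))
    have n3 := tanh_lt_one' (hdist M 0 (t • vC))
    rw [div_lt_iff₀ (by nlinarith)]
    nlinarith

end Pool.Agent.KS6_95.ER
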