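import Pool.Graph.R_seed8.Helper87.ErdosDisc

set_option autoImplicit false

/-! Projective invariance of the Hilbert distance, of feet, of configurations and of the Erdős
ratio (by way of the cone over the domain). -/

namespace Pool.Agent.KS6_95.ER

open Pool.Agent.Helper87.Erdos Set Filter Topology Pointwise

/-- homogeneous coordinates -/
abbrev V3 := (ℝ × ℝ) × ℝ

/-- the cone over `M × {1}` -/
def cone (M : Set (ℝ × ℝ)) : Set V3 := {v | 0 < v.2 ∧ v.2⁻¹ • v.1 ∈ M}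

/-- the affine plane in homogeneous coordinates -/
def up (X : ℝ × ℝ) : V3 := (X, 1)

lemma mem_cone_up {M : Set (ℝ × ℝ)} {X : ℝ × ℝ} : up X ∈ cone M ↔ X ∈ M := by
  simp [cone, up]

lemma cone_smul {M : Set (ℝ × ℝ)} {v : V3} (hv : v ∈ cone M) {c : ℝ} (hc : 0 < c) :
    c • v ∈ cone M := by
  obtain ⟨h1, h2⟩ := hv
  refine ⟨mul_pos hc h1, ?_⟩
  have : (c • v).2⁻¹ • (c • v).1 = v.2⁻¹ • v.1 := by
    rw [Prod.smul_snd, Prod.smul_fst, smul_smul, smul_eq_mul, mul_inv]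
    congr 1
    field_simp
  rwa [this]

lemma cone_smul_iff {M : Set (ℝ × ℝ)} {v : V3} {c : ℝ} (hc : 0 < c) :
    c • v ∈ cone M ↔ v ∈ cone M := by
  refine ⟨fun h => ?_, fun h => cone_smul h hc⟩
  have := cone_smul h (inv_pos.2 hc)
  rwa [smul_smul, inv_mul_cancel₀ hc.ne', one_smul] at this

/-- `Λ` identifies the cones of `M` and `M'` -/
def PM (Λ : V3 ≃ₗ[ℝ] V3) (M M' : Set (ℝ × ℝ)) : Prop := ∀ v, v ∈ cone M ↔ Λ v ∈ cone M'

lemma PM.symm {Λ : V3 ≃ₗ[ℝ] V3} {M M' : Set (ℝ × ℝ)} (h : PM Λ M M') : PM Λ.symm M' M := by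
  intro v
  rw [h, LinearEquiv.apply_symm_apply]

lemma PM.trans {Λ Λ' : V3 ≃ₗ[ℝ] V3} {M M' M'' : Set (ℝ × ℝ)} (h : PM Λ M M') (h' : PM Λ' M' M'') :
    PM (Λ.trans Λ') M M'' := by
  intro v
  rw [h, h', LinearEquiv.trans_apply]

/-- the projective map given by `Λ` -/
noncomputable def pr (Λ : V3 ≃ₗ[ℝ] V3) (X : ℝ × ℝ) : ℝ × ℝ := (Λ (up X)).2⁻¹ • (Λ (up X)).1

lemma smul_up {w : ℝ} {X : ℝ × ℝ} : w • up X = (w • X, w) := by
  simp [up, Prod.smul_mk]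

lemma lin2 {s t : ℝ} {B C : ℝ × ℝ} : s • up B + t • up C = (s • B + t • C, s + t) := by
  rw [smul_up, smul_up]; rfl

lemma lin3 {s t u : ℝ} {B C D : ℝ × ℝ} :
    s • up B + t • up C + u • up D = (s • B + t • C + u • D, s + t + u) := by
  rw [smul_up, smul_up, smul_up]; rfl

lemma pr_spec {Λ : V3 ≃ₗ[ℝ] V3} {X : ℝ × ℝ} (h : (Λ (up X)).2 ≠ 0) :
    Λ (up X) = (Λ (up X)).2 • up (pr Λ X) := by
  rw [smul_up, pr, smul_smul, mul_inv_cancel₀ h, one_smul]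

lemma PM.pos {Λ : V3 ≃ₗ[ℝ] V3} {M M' : Set (ℝ × ℝ)} (h : PM Λ M M') {X : ℝ × ℝ} (hX : X ∈ M) :
    0 < (Λ (up X)).2 := ((h _).1 (mem_cone_up.2 hX)).1

lemma PM.mem {Λ : V3 ≃ₗ[ℝ] V3} {M M' : Set (ℝ × ℝ)} (h : PM Λ M M') {X : ℝ × ℝ} (hX : X ∈ M) :
    pr Λ X ∈ M' := ((h _).1 (mem_cone_up.2 hX)).2

lemma PM.spec {Λ : V3 ≃ₗ[ℝ] V3} {M M' : Set (ℝ × ℝ)} (h : PM Λ M M') {X : ℝ × ℝ} (hX : X ∈ M) :
    Λ (up X) = (Λ (up X)).2 • up (pr Λ X) := pr_spec (h.pos hX).ne'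

lemma pr_eq {Λ : V3 ≃ₗ[ℝ] V3} {X Y : ℝ × ℝ} {w : ℝ} (hw : w ≠ 0) (h : Λ (up X) = w • up Y) :
    pr Λ X = Y := by
  rw [pr, h, smul_up]
  simp [smul_smul, hw]

lemma pr_symm_pr {Λ : V3 ≃ₗ[ℝ] V3} {X : ℝ × ℝ} (h : (Λ (up X)).2 ≠ 0) :
    pr Λ.symm (pr Λ X) = X := by
  apply pr_eq (w := (Λ (up X)).2⁻¹) (inv_ne_zero h)
  rw [LinearEquiv.symm_apply_eq, map_smul]
  have e := pr_spec h
  have e2 : (Λ (up X)).2⁻¹ • Λ (up X) = (Λ (up X)).2⁻¹ • ((Λ (up X)).2 • up (pr Λ X)) := by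
    rw [← e]
  rw [e2, smul_smul, inv_mul_cancel₀ h, one_smul]

lemma PM.pr_symm_pr {Λ : V3 ≃ₗ[ℝ] V3} {M M' : Set (ℝ × ℝ)} (h : PM Λ M M') {X : ℝ × ℝ}
    (hX : X ∈ M) : pr Λ.symm (pr Λ X) = X := ER.pr_symm_pr (h.pos hX).ne'

lemma PM.pr_pr_symm {Λ : V3 ≃ₗ[ℝ] V3} {M M' : Set (ℝ × ℝ)} (h : PM Λ M M') {X : ℝ × ℝ}
    (hX : X ∈ M') : pr Λ (pr Λ.symm X) = X := by
  have := h.symm.pr_symm_pr hX
  rwa [LinearEquiv.symm_symm] at this

/-- half of Birkhoff's oscillation data -/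
noncomputable def mm (C : Set V3) (x y : V3) : ℝ := sInf {r : ℝ | r • x + y ∈ C}

lemma mm_cone {M : Set (ℝ × ℝ)} (hM : IsOpen M) {X : ℝ × ℝ} (hX : X ∈ M) (y : V3) :
    mm (cone M) (up X) y = gauge ((fun z => z - X) '' M) (y.1 - y.2 • X) - y.2 := by
  have hset : {r : ℝ | r • up X + y ∈ cone M} = (fun r => r - y.2) ''
      {r ∈ Ioi (0:ℝ) | r⁻¹ • (y.1 - y.2 • X) ∈ (fun z => z - X) '' M} := by
    ext r
    have key : ∀ ρ : ℝ, 0 < ρ → (ρ⁻¹ • ((ρ - y.2) • X + y.1) ∈ M ↔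
        ρ⁻¹ • (y.1 - y.2 • X) ∈ (fun z => z - X) '' M) := by
      intro ρ hρ
      have e : ρ⁻¹ • ((ρ - y.2) • X + y.1) = ρ⁻¹ • (y.1 - y.2 • X) + X := by
        have : (ρ - y.2) • X + y.1 = ρ • X + (y.1 - y.2 • X) := by module
        rw [this, smul_add, smul_smul, inv_mul_cancel₀ hρ.ne', one_smul, add_comm]
      rw [e]
      constructor
      · intro h; exact ⟨_, h, by simp⟩
      · rintro ⟨z, hz, hz'⟩
        rw [← hz']; simpa using hz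
    constructor
    · rintro ⟨h1, h2⟩
      have h1' : 0 < r + y.2 := by simpa [up] using h1
      have h2' : (r + y.2)⁻¹ • (r • X + y.1) ∈ M := by simpa [up] using h2
      refine ⟨r + y.2, ⟨h1', ?_⟩, by simp⟩
      have := (key (r + y.2) h1').1 (by rwa [add_sub_cancel_right])
      exact this
    · rintro ⟨ρ, ⟨hρ, hρ'⟩, rfl⟩
      have hρ0 : 0 < ρ := hρ
      have h3 := (key ρ hρ0).2 hρ'
      refine ⟨by simpa [up] using hρ0, ?_⟩
      simpa [up] using h3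
  have hne : {r ∈ Ioi (0:ℝ) | r⁻¹ • (y.1 - y.2 • X) ∈ (fun z => z - X) '' M}.Nonempty := by
    have habs : Absorbent ℝ ((fun z => z - X) '' M) :=
      absorbent_nhds_zero (shift_nhds hM hX)
    have := habs.gauge_set_nonempty (x := y.1 - y.2 • X)
    obtain ⟨r, hr0, hr⟩ := this
    refine ⟨r, hr0, ?_⟩
    obtain ⟨z, hz, hz'⟩ := hr
    have hr0' : (0:ℝ) < r := hr0
    have : r⁻¹ • (y.1 - y.2 • X) = z := by
      rw [← hz']
      simp [smul_smul, inv_mul_cancel₀ hr0'.ne']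
    rwa [this]
  have hbd : BddBelow {r ∈ Ioi (0:ℝ) | r⁻¹ • (y.1 - y.2 • X) ∈ (fun z => z - X) '' M} :=
    ⟨0, fun r hr => le_of_lt hr.1⟩
  rw [mm, hset, gauge_def']
  exact ((OrderIso.subRight y.2).map_csInf' hne hbd).symm

lemma hdist_eq {M : Set (ℝ × ℝ)} (hM : IsOpen M) {X : ℝ × ℝ} (hX : X ∈ M) (Y : ℝ × ℝ) :
    hdist M X Y = (1 / 2) * Real.log (mm (cone M) (up X) (-up Y) / (-mm (cone M) (up X) (up Y))) := by
  rw [mm_cone hM hX, mm_cone hM hX, hdist]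
  congr 3
  · simp [up]
    rw [add_comm 1]
    congr 2
    abel
  · simp [up]

lemma mm_smul {M : Set (ℝ × ℝ)} {x y : V3} {s t : ℝ} (hs : 0 < s) (ht : 0 < t) :
    mm (cone M) (s • x) (t • y) = (t / s) * mm (cone M) x y := by
  have hset : {r : ℝ | r • s • x + t • y ∈ cone M} = (t / s) • {r : ℝ | r • x + y ∈ cone M} := by
    ext r
    rw [Set.mem_smul_set_iff_inv_smul_mem₀ (by positivity)]
    have e : r • s • x + t • y = t • (((t / s)⁻¹ • r) • x + y) := by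
      rw [smul_add, smul_smul, smul_smul]
      congr 2
      rw [smul_eq_mul]
      field_simp
    show r • s • x + t • y ∈ cone M ↔ ((t / s)⁻¹ • r) • x + y ∈ cone M
    rw [e, cone_smul_iff ht]
  rw [mm, hset, Real.sInf_smul_of_nonneg (by positivity), smul_eq_mul, mm]

lemma PM.mm {Λ : V3 ≃ₗ[ℝ] V3} {M M' : Set (ℝ × ℝ)} (h : PM Λ M M') (x y : V3) :
    mm (cone M') (Λ x) (Λ y) = mm (cone M) x y := by
  unfold ER.mm
  congr 1
  ext r
  show r • Λ x + Λ y ∈ cone M' ↔ r • x + y ∈ cone M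
  rw [h, map_add, map_smul]

theorem PM.hdist {Λ : V3 ≃ₗ[ℝ] V3} {M M' : Set (ℝ × ℝ)} (h : PM Λ M M') (hM : IsOpen M)
    (hM' : IsOpen M') {X Y : ℝ × ℝ} (hX : X ∈ M) (hY : Y ∈ M) :
    hdist M' (pr Λ X) (pr Λ Y) = hdist M X Y := by
  rw [hdist_eq hM hX, hdist_eq hM' (h.mem hX), ← h.mm, ← h.mm, map_neg]
  have hx := h.spec hX
  have hy := h.spec hY
  have px := h.pos hX
  have py := h.pos hY
  have e1 : ER.mm (cone M') (Λ (up X)) (-Λ (up Y)) =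
      ((Λ (up Y)).2 / (Λ (up X)).2) * ER.mm (cone M') (up (pr Λ X)) (-up (pr Λ Y)) := by
    rw [← mm_smul px py, ← hx, smul_neg, ← hy]
  have e2 : ER.mm (cone M') (Λ (up X)) (Λ (up Y)) =
      ((Λ (up Y)).2 / (Λ (up X)).2) * ER.mm (cone M') (up (pr Λ X)) (up (pr Λ Y)) := by
    rw [← mm_smul px py, ← hx, ← hy]
  rw [e1, e2]
  congr 2
  rw [← mul_neg, mul_div_mul_left _ _ (by positivity)]

lemma mem_line_iff {B C F : ℝ × ℝ} :
    F ∈ affineSpan ℝ ({B, C} : Set (ℝ × ℝ)) ↔ ∃ s t : ℝ, up F = s • up B + t • up C := by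
  rw [mem_affineSpan_pair_iff_exists_lineMap_eq]
  constructor
  · rintro ⟨r, rfl⟩
    refine ⟨1 - r, r, ?_⟩
    rw [AffineMap.lineMap_apply, vsub_eq_sub, vadd_eq_add, lin2]
    refine Prod.ext ?_ ?_
    · show r • (C - B) + B = (1 - r) • B + r • C
      module
    · show (1:ℝ) = 1 - r + r
      ring
  · rintro ⟨s, t, h⟩
    rw [lin2] at h
    have h1 : F = s • B + t • C := congrArg Prod.fst h
    have h2 : (1:ℝ) = s + t := congrArg Prod.snd h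
    refine ⟨t, ?_⟩
    have hs : s = 1 - t := by linarith
    rw [AffineMap.lineMap_apply, vsub_eq_sub, vadd_eq_add, h1, hs]
    module

lemma PM.mem_line {Λ : V3 ≃ₗ[ℝ] V3} {M M' : Set (ℝ × ℝ)} (h : PM Λ M M') {B C F : ℝ × ℝ}
    (hB : B ∈ M) (hC : C ∈ M) (hF : F ∈ M) (hl : F ∈ affineSpan ℝ ({B, C} : Set (ℝ × ℝ))) :
    pr Λ F ∈ affineSpan ℝ ({pr Λ B, pr Λ C} : Set (ℝ × ℝ)) := by
  rw [mem_line_iff] at hl ⊢
  obtain ⟨s, t, e⟩ := hl
  have h1 := congrArg Λ e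
  rw [map_add, map_smul, map_smul, h.spec hB, h.spec hC, h.spec hF] at h1
  refine ⟨(Λ (up F)).2⁻¹ * (s * (Λ (up B)).2), (Λ (up F)).2⁻¹ * (t * (Λ (up C)).2), ?_⟩
  have h2 := congrArg (fun v => (Λ (up F)).2⁻¹ • v) h1
  simp only [smul_smul, smul_add] at h2
  rw [inv_mul_cancel₀ (h.pos hF).ne', one_smul] at h2
  rw [h2]

theorem PM.isFoot {Λ : V3 ≃ₗ[ℝ] V3} {M M' : Set (ℝ × ℝ)} (h : PM Λ M M') (hM : IsOpen M)
    (hM' : IsOpen M') {O B C F : ℝ × ℝ} (hO : O ∈ M) (hB : B ∈ M) (hC : C ∈ M)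
    (hF : IsFoot M O B C F) : IsFoot M' (pr Λ O) (pr Λ B) (pr Λ C) (pr Λ F) := by
  obtain ⟨f1, f2, f3⟩ := hF
  refine ⟨h.mem_line hB hC f2 f1, h.mem f2, ?_⟩
  intro X hX hXM
  obtain ⟨Z, hZ⟩ : ∃ Z, Z = pr Λ.symm X := ⟨_, rfl⟩
  have hZM : Z ∈ M := by rw [hZ]; exact h.symm.mem hXM
  have hXZ : pr Λ Z = X := by rw [hZ]; exact h.pr_pr_symm hXM
  have hZl : Z ∈ affineSpan ℝ ({B, C} : Set (ℝ × ℝ)) := by
    have := h.symm.mem_line (h.mem hB) (h.mem hC) hXM hX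
    rwa [h.pr_symm_pr hB, h.pr_symm_pr hC, ← hZ] at this
  rw [← hXZ, h.hdist hM hM' hO f2, h.hdist hM hM' hO hZM]
  exact f3 Z hZl hZM

lemma PM.collinear {Λ : V3 ≃ₗ[ℝ] V3} {M M' : Set (ℝ × ℝ)} (h : PM Λ M M') {A B C : ℝ × ℝ}
    (hA : A ∈ M) (hB : B ∈ M) (hC : C ∈ M) (hcol : Collinear ℝ {A, B, C}) :
    Collinear ℝ {pr Λ A, pr Λ B, pr Λ C} := by
  by_cases hAB : A = B
  · subst hAB
    rw [Set.insert_eq_of_mem (by simp)]
    exact collinear_pair _ _ _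
  · have h1 : C ∈ affineSpan ℝ ({A, B} : Set (ℝ × ℝ)) :=
      hcol.mem_affineSpan_of_mem_of_ne (by simp) (by simp) (by simp) hAB
    have h2 := h.mem_line hA hB hC h1
    have h3 := collinear_insert_of_mem_affineSpan_pair h2
    have e : ({pr Λ A, pr Λ B, pr Λ C} : Set (ℝ × ℝ)) = {pr Λ C, pr Λ A, pr Λ B} := by
      ext x; simp only [mem_insert_iff, mem_singleton_iff]; tauto
    rw [e]
    exact h3

lemma inside_iff {A B C O : ℝ × ℝ} :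
    (∃ α β γ : ℝ, 0 < α ∧ 0 < β ∧ 0 < γ ∧ α + β + γ = 1 ∧ O = α • A + β • B + γ • C) ↔
    (∃ α β γ : ℝ, 0 < α ∧ 0 < β ∧ 0 < γ ∧ up O = α • up A + β • up B + γ • up C) := by
  constructor
  · rintro ⟨α, β, γ, h1, h2, h3, h4, h5⟩
    refine ⟨α, β, γ, h1, h2, h3, ?_⟩
    rw [lin3, h4, h5, up]
  · rintro ⟨α, β, γ, h1, h2, h3, h4⟩
    rw [lin3] at h4
    exact ⟨α, β, γ, h1, h2, h3, (congrArg Prod.snd h4).symm, congrArg Prod.fst h4⟩

theorem PM.isConfig {Λ : V3 ≃ₗ[ℝ] V3} {M M' : Set (ℝ × ℝ)} (h : PM Λ M M') (hM : IsOpen M)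
    (hM' : IsOpen M') (hc : Convex ℝ M) {A B C O P Q R : ℝ × ℝ} (hcfg : IsConfig M A B C O P Q R) :
    O ∈ M ∧ IsConfig M' (pr Λ A) (pr Λ B) (pr Λ C) (pr Λ O) (pr Λ P) (pr Λ Q) (pr Λ R) ∧
    configRatio M' (pr Λ A) (pr Λ B) (pr Λ C) (pr Λ O) (pr Λ P) (pr Λ Q) (pr Λ R) =
      configRatio M A B C O P Q R := by
  obtain ⟨hA, hB, hC, hncol, hin, hP, hQ, hR⟩ := hcfg
  have hO : O ∈ M := by
    obtain ⟨α, β, γ, hα, hβ, hγ, hsum, hOe⟩ := hin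
    rw [hOe]
    have h1 : α • A + β • B + γ • C = (α + β) • ((α/(α+β)) • A + (β/(α+β)) • B) + γ • C := by
      rw [smul_add, smul_smul, smul_smul, mul_div_cancel₀ _ (by positivity),
        mul_div_cancel₀ _ (by positivity)]
    rw [h1]
    apply hc _ hC (by positivity) hγ.le hsum
    apply hc hA hB (by positivity) (by positivity)
    field_simp
  refine ⟨hO, ⟨h.mem hA, h.mem hB, h.mem hC, ?_, ?_, h.isFoot hM hM' hO hB hC hP,
    h.isFoot hM hM' hO hC hA hQ, h.isFoot hM hM' hO hA hB hR⟩, ?_⟩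
  · intro hcol
    apply hncol
    have := h.symm.collinear (h.mem hA) (h.mem hB) (h.mem hC) hcol
    rwa [h.pr_symm_pr hA, h.pr_symm_pr hB, h.pr_symm_pr hC] at this
  · rw [inside_iff] at hin ⊢
    obtain ⟨α, β, γ, hα, hβ, hγ, e⟩ := hin
    have h1 := congrArg Λ e
    rw [map_add, map_add, map_smul, map_smul, map_smul, h.spec hA, h.spec hB, h.spec hC,
      h.spec hO] at h1
    have pA := h.pos hA
    have pB := h.pos hB
    have pC := h.pos hC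
    have pO := h.pos hO
    refine ⟨(Λ (up O)).2⁻¹ * (α * (Λ (up A)).2), (Λ (up O)).2⁻¹ * (β * (Λ (up B)).2),
      (Λ (up O)).2⁻¹ * (γ * (Λ (up C)).2), by positivity, by positivity, by positivity, ?_⟩
    have h2 := congrArg (fun v => (Λ (up O)).2⁻¹ • v) h1
    simp only [smul_smul, smul_add] at h2
    rw [inv_mul_cancel₀ pO.ne', one_smul] at h2
    rw [h2]
  · unfold configRatio
    rw [h.hdist hM hM' hO hA, h.hdist hM hM' hO hB, h.hdist hM hM' hO hC, h.hdist hM hM' hO hP.2.1,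
      h.hdist hM hM' hO hQ.2.1, h.hdist hM hM' hO hR.2.1]

theorem PM.erdosRatio_eq {Λ : V3 ≃ₗ[ℝ] V3} {M M' : Set (ℝ × ℝ)} (h : PM Λ M M') (hM : IsOpen M)
    (hM' : IsOpen M') (hc : Convex ℝ M) (hc' : Convex ℝ M') : erdosRatio M = erdosRatio M' := by
  unfold erdosRatio
  congr 1
  ext ρ
  constructor
  · rintro ⟨A, B, C, O, P, Q, R, hcfg, rfl⟩
    obtain ⟨-, h1, h2⟩ := h.isConfig hM hM' hc hcfg
    exact ⟨_, _, _, _, _, _, _, h1, h2.symm⟩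
  · rintro ⟨A, B, C, O, P, Q, R, hcfg, rfl⟩
    obtain ⟨-, h1, h2⟩ := h.symm.isConfig hM' hM hc' hcfg
    exact ⟨_, _, _, _, _, _, _, h1, h2.symm⟩

/-! ### openness and convexity of the image -/

lemma PM.mem_iff {Λ : V3 ≃ₗ[ℝ] V3} {M M' : Set (ℝ × ℝ)} (h : PM Λ M M') (Y : ℝ × ℝ) :
    Y ∈ M' ↔ Λ.symm (up Y) ∈ cone M := by
  rw [← mem_cone_up, h.symm]

lemma cone_add {M : Set (ℝ × ℝ)} (hc : Convex ℝ M) {v w : V3} (hv : v ∈ cone M)
    (hw : w ∈ cone M) : v + w ∈ cone M := by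
  obtain ⟨v1, v2⟩ := hv
  obtain ⟨w1, w2⟩ := hw
  have h12 : 0 < v.2 + w.2 := add_pos v1 w1
  refine ⟨h12, ?_⟩
  have e : (v + w).2⁻¹ • (v + w).1 = (v.2 / (v.2 + w.2)) • (v.2⁻¹ • v.1) +
      (w.2 / (v.2 + w.2)) • (w.2⁻¹ • w.1) := by
    rw [Prod.snd_add, Prod.fst_add, smul_add, smul_smul, smul_smul]
    congr 2
    · field_simp
    · field_simp
  rw [e]
  apply hc v2 w2 (by positivity) (by positivity)
  field_simp

lemma isOpen_cone {M : Set (ℝ × ℝ)} (hM : IsOpen M) : IsOpen (cone M) := by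
  have h1 : IsOpen {v : V3 | 0 < v.2} := isOpen_lt continuous_const continuous_snd
  have h2 : ContinuousOn (fun v : V3 => v.2⁻¹ • v.1) {v : V3 | 0 < v.2} := by
    refine ContinuousOn.smul (f := fun v : V3 => v.2⁻¹) (g := fun v : V3 => v.1) ?_ ?_
    · exact ContinuousOn.inv₀ continuous_snd.continuousOn (fun v hv => (ne_of_gt hv))
    · exact continuous_fst.continuousOn
  exact h2.isOpen_inter_preimage h1 hM

lemma up_combo {X Y : ℝ × ℝ} {a b : ℝ} (hab : a + b = 1) :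
    up (a • X + b • Y) = a • up X + b • up Y := by
  rw [lin2, hab, up]

lemma PM.convex {Λ : V3 ≃ₗ[ℝ] V3} {M M' : Set (ℝ × ℝ)} (h : PM Λ M M') (hc : Convex ℝ M) :
    Convex ℝ M' := by
  intro X hX Y hY a b ha hb hab
  rw [h.mem_iff] at hX hY ⊢
  rw [up_combo hab, map_add, map_smul, map_smul]
  rcases eq_or_lt_of_le ha with h0 | ha
  · have : b = 1 := by linarith
    rw [← h0, this, zero_smul, one_smul, zero_add]; exact hY
  rcases eq_or_lt_of_le hb with h0 | hb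
  · have : a = 1 := by linarith
    rw [← h0, this, zero_smul, one_smul, add_zero]; exact hX
  exact cone_add hc (cone_smul hX ha) (cone_smul hY hb)

lemma continuous_up : Continuous up := by unfold up; fun_prop

lemma continuous_lin (Λ : V3 ≃ₗ[ℝ] V3) : Continuous Λ :=
  LinearMap.continuous_of_finiteDimensional (Λ : V3 →ₗ[ℝ] V3)

lemma PM.isOpen {Λ : V3 ≃ₗ[ℝ] V3} {M M' : Set (ℝ × ℝ)} (h : PM Λ M M') (hM : IsOpen M) :
    IsOpen M' := by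
  have : M' = (fun Y => Λ.symm (up Y)) ⁻¹' cone M := by
    ext Y; exact h.mem_iff Y
  rw [this]
  exact (isOpen_cone hM).preimage ((continuous_lin _).comp continuous_up)

/-- the image domain -/
def img (Λ : V3 ≃ₗ[ℝ] V3) (M : Set (ℝ × ℝ)) : Set (ℝ × ℝ) := {Y | Λ.symm (up Y) ∈ cone M}

lemma PM_img {Λ : V3 ≃ₗ[ℝ] V3} {M : Set (ℝ × ℝ)} (h : ∀ v ∈ cone M, 0 < (Λ v).2) :
    PM Λ M (img Λ M) := by
  have key : ∀ v : V3, 0 < (Λ v).2 → (Λ v ∈ cone (img Λ M) ↔ v ∈ cone M) := by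
    intro v hv
    have e : Λ.symm (up ((Λ v).2⁻¹ • (Λ v).1)) = (Λ v).2⁻¹ • v := by
      rw [LinearEquiv.symm_apply_eq, map_smul]
      apply Prod.ext
      · simp [up]
      · simp [up, inv_mul_cancel₀ hv.ne']
    constructor
    · rintro ⟨h1, h2⟩
      have h2' : Λ.symm (up ((Λ v).2⁻¹ • (Λ v).1)) ∈ cone M := h2
      rwa [e, cone_smul_iff (inv_pos.2 hv)] at h2'
    · intro h1
      refine ⟨hv, ?_⟩
      show Λ.symm (up ((Λ v).2⁻¹ • (Λ v).1)) ∈ cone M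
      rw [e]
      exact cone_smul h1 (inv_pos.2 hv)
  intro v
  constructor
  · intro hv
    exact (key v (h v hv)).2 hv
  · intro hv
    exact (key v hv.1).1 hv

end Pool.Agent.KS6_95.ER
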