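import Pool.Agent.KS6_95.ER.Bounded
import Pool.Graph.R_seed8.Results.MP_28bd58_gt.ErdosRatio

set_option autoImplicit false

/-! The rigidity theorem: the Erdős ratio is `2` exactly for the inside of an ellipse or of a
parabola. -/

namespace Pool.Agent.KS6_95.ER

open Pool.Agent.Helper87.Erdos Set Filter Topology

/-- the inside of the parabola `y = x²` -/
def parab : Set (ℝ × ℝ) := {p | p.1 ^ 2 < p.2}

/-- from the disc to the parabola -/
noncomputable def psi : V3 ≃ₗ[ℝ] V3 where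
  toFun v := ((v.1.1, v.2 + v.1.2), v.2 - v.1.2)
  map_add' v w := by
    refine Prod.ext (Prod.ext ?_ ?_) ?_ <;>
    simp only [Prod.fst_add, Prod.snd_add] <;> ring
  map_smul' c v := by
    refine Prod.ext (Prod.ext ?_ ?_) ?_ <;>
    simp only [Prod.smul_fst, Prod.smul_snd, smul_eq_mul, RingHom.id_apply] <;> ring
  invFun v := ((v.1.1, (v.1.2 - v.2) / 2), (v.1.2 + v.2) / 2)
  left_inv v := by
    refine Prod.ext (Prod.ext ?_ ?_) ?_
    · rfl
    · simp only; ring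
    · simp only; ring
  right_inv v := by
    refine Prod.ext (Prod.ext ?_ ?_) ?_
    · rfl
    · simp only; ring
    · simp only; ring

lemma PM_psi : PM psi unitDisc parab := by
  intro v
  rw [mem_cone_disc]
  have e1 : (psi v).2 = v.2 - v.1.2 := rfl
  have e2 : (psi v).1.1 = v.1.1 := rfl
  have e3 : (psi v).1.2 = v.2 + v.1.2 := rfl
  have hcp : psi v ∈ cone parab ↔ 0 < v.2 - v.1.2 ∧ v.1.1 ^ 2 < (v.2 + v.1.2) * (v.2 - v.1.2) := by
    constructor
    · rintro ⟨h1, h2⟩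
      rw [e1] at h1
      refine ⟨h1, ?_⟩
      have h3 : ((psi v).2⁻¹ * (psi v).1.1) ^ 2 < (psi v).2⁻¹ * (psi v).1.2 := h2
      rw [e1, e2, e3] at h3
      have h4 : ((v.2 - v.1.2)⁻¹ * v.1.1) ^ 2 * (v.2 - v.1.2) ^ 2 <
          ((v.2 - v.1.2)⁻¹ * (v.2 + v.1.2)) * (v.2 - v.1.2) ^ 2 :=
        mul_lt_mul_of_pos_right h3 (by positivity)
      have h5 : ((v.2 - v.1.2)⁻¹ * v.1.1) ^ 2 * (v.2 - v.1.2) ^ 2 = v.1.1 ^ 2 := by field_simp
      have h6 : ((v.2 - v.1.2)⁻¹ * (v.2 + v.1.2)) * (v.2 - v.1.2) ^ 2 =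
        (v.2 + v.1.2) * (v.2 - v.1.2) := by field_simp
      rwa [h5, h6] at h4
    · rintro ⟨h1, h2⟩
      refine ⟨by rw [e1]; exact h1, ?_⟩
      show ((psi v).2⁻¹ * (psi v).1.1) ^ 2 < (psi v).2⁻¹ * (psi v).1.2
      rw [e1, e2, e3, mul_pow, inv_pow, inv_mul_lt_iff₀ (by positivity)]
      have : (v.2 - v.1.2) ^ 2 * ((v.2 - v.1.2)⁻¹ * (v.2 + v.1.2)) =
        (v.2 + v.1.2) * (v.2 - v.1.2) := by field_simp
      rw [this]; exact h2
  rw [hcp]
  constructor
  · rintro ⟨h1, h2⟩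
    have h3 : v.1.2 ^ 2 < v.2 ^ 2 := by nlinarith [sq_nonneg v.1.1]
    have h4 := abs_lt_of_sq_lt_sq h3 h1.le
    refine ⟨by linarith [(abs_lt.1 h4).2], by nlinarith⟩
  · rintro ⟨h1, h2⟩
    have h3 : 0 < (v.2 + v.1.2) * (v.2 - v.1.2) := lt_of_le_of_lt (sq_nonneg _) h2
    have h4 : 0 < v.2 + v.1.2 := (pos_iff_pos_of_mul_pos h3).2 h1
    exact ⟨by linarith, by nlinarith⟩

lemma isOpen_parab : IsOpen parab := PM_psi.isOpen isOpen_unitDisc

lemma convex_parab : Convex ℝ parab := PM_psi.convex convex_unitDisc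

lemma erdosRatio_image {M : Set (ℝ × ℝ)} (hM : IsOpen M) (hc : Convex ℝ M)
    (T : (ℝ × ℝ) ≃ᵃ[ℝ] (ℝ × ℝ)) : erdosRatio (T '' M) = erdosRatio M :=
  ((PM_affL T M).erdosRatio_eq hM ((PM_affL T M).isOpen hM) hc ((PM_affL T M).convex hc)).symm

/-- a domain projectively equivalent to the disc is bounded or the inside of a parabola -/
theorem classify {M : Set (ℝ × ℝ)} {Λ : V3 ≃ₗ[ℝ] V3} (hpm : PM Λ M unitDisc)
    (hnb : ¬ Bornology.IsBounded M) : ∃ T : (ℝ × ℝ) ≃ᵃ[ℝ] (ℝ × ℝ), M = T '' parab := by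
  obtain ⟨a, ha⟩ : ∃ a, a = (Λ.symm ((0, 0), 1)).2 := ⟨_, rfl⟩
  obtain ⟨b, hb⟩ : ∃ b, b = (Λ.symm ((1, 0), 0)).2 := ⟨_, rfl⟩
  obtain ⟨c, hc⟩ : ∃ c, c = (Λ.symm ((0, 1), 0)).2 := ⟨_, rfl⟩
  have hw : ∀ v : V3, (Λ.symm v).2 = v.2 * a + v.1.1 * b + v.1.2 * c := by
    intro v
    have e : v = v.2 • ((0, 0), 1) + v.1.1 • ((1, 0), 0) + v.1.2 • ((0, 1), 0) := by
      refine Prod.ext (Prod.ext ?_ ?_) ?_ <;> simp
    conv_lhs => rw [e]
    rw [map_add, map_add, map_smul, map_smul, map_smul, ha, hb, hc]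
    rfl
  have hwp : ∀ y ∈ unitDisc, 0 < a + y.1 * b + y.2 * c := by
    intro y hy
    have := hpm.symm.pos hy
    rw [hw] at this
    simpa [up] using this
  have ha0 : 0 < a := by
    have := hwp (0, 0) (by rw [mem_unitDisc]; norm_num)
    simpa using this
  have hbc : b ^ 2 + c ^ 2 ≤ a ^ 2 := by
    by_contra hh
    push Not at hh
    have hpos : 0 < b ^ 2 + c ^ 2 := lt_of_le_of_lt (sq_nonneg a) hh
    have := hwp (-(a / (b ^ 2 + c ^ 2)) * b, -(a / (b ^ 2 + c ^ 2)) * c) (by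
      rw [mem_unitDisc]
      simp only
      have : (-(a / (b ^ 2 + c ^ 2)) * b) ^ 2 + (-(a / (b ^ 2 + c ^ 2)) * c) ^ 2 =
          a ^ 2 / (b ^ 2 + c ^ 2) := by field_simp
      rw [this, div_lt_one hpos]; exact hh)
    simp only at this
    have e : a + -(a / (b ^ 2 + c ^ 2)) * b * b + -(a / (b ^ 2 + c ^ 2)) * c * c = 0 := by
      field_simp; ring
    rw [e] at this
    exact lt_irrefl _ this
  -- a zero on the closed disc
  obtain ⟨e, he1, he2⟩ : ∃ e : ℝ × ℝ, e ∈ closure unitDisc ∧ a + e.1 * b + e.2 * c ≤ 0 := by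
    by_contra hh
    push Not at hh
    apply hnb
    have hcomp : IsCompact (closure unitDisc) := bounded_unitDisc.isCompact_closure
    have hct : ContinuousOn (pr Λ.symm) (closure unitDisc) := by
      have hcont : Continuous (fun X => Λ.symm (up X)) := (continuous_lin _).comp continuous_up
      unfold pr
      refine ContinuousOn.smul (f := fun X => (Λ.symm (up X)).2⁻¹)
        (g := fun X => (Λ.symm (up X)).1) ?_ ?_
      · refine ContinuousOn.inv₀ (continuous_snd.comp hcont).continuousOn ?_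
        intro y hy
        have := hh y hy
        rw [hw]
        simp only [up]
        linarith
      · exact (continuous_fst.comp hcont).continuousOn
    apply (hcomp.image_of_continuousOn hct).isBounded.subset
    intro x hx
    exact ⟨pr Λ x, subset_closure (hpm.mem hx), hpm.pr_symm_pr hx⟩
  have he3 : e.1 ^ 2 + e.2 ^ 2 ≤ 1 := by
    have hcl : IsClosed {p : ℝ × ℝ | p.1^2 + p.2^2 ≤ 1} :=
      isClosed_le (by fun_prop) continuous_const
    exact closure_minimal (fun q hq => ((mem_unitDisc q).1 hq).le) hcl he1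
  have he4 : (b + a * e.1) ^ 2 + (c + a * e.2) ^ 2 ≤ 0 := by
    have : (b + a * e.1) ^ 2 + (c + a * e.2) ^ 2 = (b ^ 2 + c ^ 2) + 2 * a * (e.1 * b + e.2 * c) +
        a ^ 2 * (e.1 ^ 2 + e.2 ^ 2) := by ring
    rw [this]
    nlinarith [mul_nonneg ha0.le (by linarith : (0:ℝ) ≤ -(a + (e.1 * b + e.2 * c))),
      mul_nonneg (sq_nonneg a) (by linarith : (0:ℝ) ≤ 1 - (e.1 ^ 2 + e.2 ^ 2))]
  have hb' : b = -(a * e.1) := by
    have : b + a * e.1 = 0 := by nlinarith [sq_nonneg (b + a * e.1), sq_nonneg (c + a * e.2)]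
    linarith
  have hc' : c = -(a * e.2) := by
    have : c + a * e.2 = 0 := by nlinarith [sq_nonneg (b + a * e.1), sq_nonneg (c + a * e.2)]
    linarith
  have he5 : e.1 ^ 2 + e.2 ^ 2 = 1 := by
    rw [hb', hc'] at he2
    have h1 : a * (1 - (e.1 ^ 2 + e.2 ^ 2)) ≤ 0 := by linarith
    have h2 : 1 - (e.1 ^ 2 + e.2 ^ 2) ≤ 0 := by
      by_contra hh
      push Not at hh
      have := mul_pos ha0 hh
      linarith
    linarith
  -- rotate and pass to the parabola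
  have hrot : PM (rot e he5) unitDisc unitDisc := by
    intro v
    rw [mem_cone_disc, mem_cone_disc]
    show _ ↔ 0 < v.2 ∧ (e.2 * v.1.1 - e.1 * v.1.2) ^ 2 + (e.1 * v.1.1 + e.2 * v.1.2) ^ 2 < v.2 ^ 2
    have : (e.2 * v.1.1 - e.1 * v.1.2) ^ 2 + (e.1 * v.1.1 + e.2 * v.1.2) ^ 2 =
        v.1.1 ^ 2 + v.1.2 ^ 2 := by linear_combination (v.1.1 ^ 2 + v.1.2 ^ 2) * he5
    rw [this]
  obtain ⟨Γ, hΓ⟩ : ∃ Γ, Γ = (Λ.trans (rot e he5)).trans psi := ⟨_, rfl⟩
  have hpmΓ : PM Γ M parab := by rw [hΓ]; exact (hpm.trans hrot).trans PM_psi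
  have hw2 : ∀ v : V3, (Γ.symm v).2 = a * v.2 := by
    intro v
    have e1 : Γ.symm v = Λ.symm ((rot e he5).symm (psi.symm v)) := by rw [hΓ]; rfl
    rw [e1, hw]
    have e2 : (rot e he5).symm (psi.symm v) =
        ((e.2 * v.1.1 + e.1 * ((v.1.2 - v.2) / 2), -e.1 * v.1.1 + e.2 * ((v.1.2 - v.2) / 2)),
          (v.1.2 + v.2) / 2) := rfl
    rw [e2, hb', hc']
    simp only
    linear_combination (-(a * ((v.1.2 - v.2) / 2))) * he5
  obtain ⟨θ, hθ⟩ : ∃ θ : (ℝ × ℝ) × (ℝ × ℝ) × (ℝ × ℝ), θ = (a⁻¹ • (Γ.symm ((1, 0), 0)).1,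
    a⁻¹ • (Γ.symm ((0, 1), 0)).1, a⁻¹ • (Γ.symm ((0, 0), 1)).1) := ⟨_, rfl⟩
  have hlin : ∀ v : V3, (Γ.symm v).1 = v.1.1 • (Γ.symm ((1, 0), 0)).1 +
      v.1.2 • (Γ.symm ((0, 1), 0)).1 + v.2 • (Γ.symm ((0, 0), 1)).1 := by
    intro v
    have e : v = v.1.1 • ((1, 0), 0) + v.1.2 • ((0, 1), 0) + v.2 • ((0, 0), 1) := by
      refine Prod.ext (Prod.ext ?_ ?_) ?_ <;> simp
    conv_lhs => rw [e]
    rw [map_add, map_add, map_smul, map_smul, map_smul]
    rfl
  have hpr : ∀ p, pr Γ.symm p = aff θ p := by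
    intro p
    unfold pr aff
    rw [hw2, hlin (up p), hθ]
    simp only [up, mul_one, one_smul]
    module
  have hcr : cr θ.1 θ.2.1 ≠ 0 := by
    intro h
    have key : ∀ v : V3, v.2 = 0 → v.1.1 • θ.1 + v.1.2 • θ.2.1 = 0 → v = 0 := by
      intro v h1 h2
      have h3 : Γ.symm v = 0 := by
        refine Prod.ext ?_ ?_
        · rw [hlin v, h1, zero_smul, add_zero]
          have h4 : a⁻¹ • (v.1.1 • (Γ.symm ((1, 0), 0)).1 + v.1.2 • (Γ.symm ((0, 1), 0)).1) = 0 := by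
            rw [← h2, hθ]
            simp only
            module
          have := smul_eq_zero.1 h4
          rcases this with h5 | h5
          · exact absurd h5 (inv_ne_zero ha0.ne')
          · exact h5
        · rw [hw2, h1, mul_zero]; rfl
      exact (LinearEquiv.map_eq_zero_iff _).1 h3
    simp only [cr] at h
    have k1 := key ((θ.2.1.1, -θ.1.1), 0) rfl (by
      ext
      · simp only [Prod.fst_add, Prod.smul_fst, smul_eq_mul, Prod.fst_zero]; ring
      · simp only [Prod.snd_add, Prod.smul_snd, smul_eq_mul, Prod.snd_zero]; linarith)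
    have k2 := key ((θ.2.1.2, -θ.1.2), 0) rfl (by
      ext
      · simp only [Prod.fst_add, Prod.smul_fst, smul_eq_mul, Prod.fst_zero]; linarith
      · simp only [Prod.snd_add, Prod.smul_snd, smul_eq_mul, Prod.snd_zero]; ring)
    have j1 : θ.2.1.1 = 0 := congrArg (fun v : V3 => v.1.1) k1
    have j2 : -θ.1.1 = 0 := congrArg (fun v : V3 => v.1.2) k1
    have j3 : θ.2.1.2 = 0 := congrArg (fun v : V3 => v.1.1) k2
    have j4 : -θ.1.2 = 0 := congrArg (fun v : V3 => v.1.2) k2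
    have k3 := key ((1, 0), 0) rfl (by
      ext
      · simp only [Prod.fst_add, Prod.smul_fst, smul_eq_mul, Prod.fst_zero]; linarith
      · simp only [Prod.snd_add, Prod.smul_snd, smul_eq_mul, Prod.snd_zero]; linarith)
    have : (1:ℝ) = 0 := congrArg (fun v : V3 => v.1.1) k3
    exact one_ne_zero this
  obtain ⟨T, hT⟩ := exists_affineEquiv hcr
  refine ⟨T, ?_⟩
  ext x
  constructor
  · intro hx
    refine ⟨pr Γ x, hpmΓ.mem hx, ?_⟩
    rw [hT, ← hpr]
    exact hpmΓ.pr_symm_pr hx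
  · rintro ⟨p, hp, rfl⟩
    rw [hT, ← hpr]
    exact hpmΓ.symm.mem hp

/-- **Rigidity.** -/
theorem rigidity {M : Set (ℝ × ℝ)} (hM : IsHilbertDomain M) :
    erdosRatio M = 2 ↔ ∃ T : (ℝ × ℝ) ≃ᵃ[ℝ] (ℝ × ℝ), M = T '' unitDisc ∨ M = T '' parab := by
  constructor
  · intro h
    by_cases hb : Bornology.IsBounded M
    · have hid : PM (LinearEquiv.refl ℝ V3) M M := fun v => Iff.rfl
      obtain ⟨T, hT⟩ := bounded_case hM hid hb h.ge
      refine ⟨T.symm, Or.inl ?_⟩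
      rw [← hT]
      ext x
      constructor
      · intro hx
        exact ⟨T x, ⟨x, hx, rfl⟩, by simp⟩
      · rintro ⟨y, ⟨z, hz, rfl⟩, rfl⟩
        simpa using hz
    · obtain ⟨Λ, M', hpm, hb'⟩ := exists_chart hM
      obtain ⟨T, hT⟩ := bounded_case hM hpm hb' h.ge
      have hpm2 : PM (Λ.trans (affL T)) M unitDisc := by
        rw [← hT]; exact hpm.trans (PM_affL T M')
      obtain ⟨S, hS⟩ := classify hpm2 hb
      exact ⟨S, Or.inr hS⟩
  · rintro ⟨T, rfl | rfl⟩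
    · rw [erdosRatio_image isOpen_unitDisc convex_unitDisc, erdosRatio_unitDisc]
    · rw [erdosRatio_image isOpen_parab convex_parab,
        ← PM_psi.erdosRatio_eq isOpen_unitDisc isOpen_parab convex_unitDisc convex_parab,
        erdosRatio_unitDisc]

end Pool.Agent.KS6_95.ER
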