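import Pool.Agent.KS6_95.ER.Key

set_option autoImplicit false

/-! Projective automorphisms of the disc: three contact points are moved to the vertices of a
regular triangle. -/

namespace Pool.Agent.KS6_95.ER

open Pool.Agent.Helper87.Erdos Set Filter Topology

/-- the action `S ↦ g S gᵀ` on symmetric matrices `S = [[t + y, x], [x, t - y]]` -/
noncomputable def act (α β γ δ : ℝ) : V3 →ₗ[ℝ] V3 where
  toFun v :=
    ((α * γ * (v.2 + v.1.2) + (α * δ + β * γ) * v.1.1 + β * δ * (v.2 - v.1.2),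
      ((α ^ 2 * (v.2 + v.1.2) + 2 * α * β * v.1.1 + β ^ 2 * (v.2 - v.1.2)) -
        (γ ^ 2 * (v.2 + v.1.2) + 2 * γ * δ * v.1.1 + δ ^ 2 * (v.2 - v.1.2))) / 2),
      ((α ^ 2 * (v.2 + v.1.2) + 2 * α * β * v.1.1 + β ^ 2 * (v.2 - v.1.2)) +
        (γ ^ 2 * (v.2 + v.1.2) + 2 * γ * δ * v.1.1 + δ ^ 2 * (v.2 - v.1.2))) / 2)
  map_add' v w := by
    refine Prod.ext (Prod.ext ?_ ?_) ?_ <;>
    simp only [Prod.fst_add, Prod.snd_add] <;> ring
  map_smul' c v := by
    refine Prod.ext (Prod.ext ?_ ?_) ?_ <;>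
    simp only [Prod.smul_fst, Prod.smul_snd, smul_eq_mul, RingHom.id_apply] <;> ring

lemma act_adj (α β γ δ : ℝ) (v : V3) :
    act δ (-β) (-γ) α (act α β γ δ v) = (α * δ - β * γ) ^ 2 • v := by
  refine Prod.ext (Prod.ext ?_ ?_) ?_ <;>
  simp only [act, LinearMap.coe_mk, AddHom.coe_mk, Prod.smul_fst, Prod.smul_snd, smul_eq_mul] <;>
  ring

lemma act_adj' (α β γ δ : ℝ) (v : V3) :
    act α β γ δ (act δ (-β) (-γ) α v) = (α * δ - β * γ) ^ 2 • v := by
  refine Prod.ext (Prod.ext ?_ ?_) ?_ <;>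
  simp only [act, LinearMap.coe_mk, AddHom.coe_mk, Prod.smul_fst, Prod.smul_snd, smul_eq_mul] <;>
  ring

noncomputable def actE (α β γ δ : ℝ) (h : α * δ - β * γ ≠ 0) : V3 ≃ₗ[ℝ] V3 :=
  { act α β γ δ with
    invFun := fun v => ((α * δ - β * γ) ^ 2)⁻¹ • act δ (-β) (-γ) α v
    left_inv := by
      intro v
      show ((α * δ - β * γ) ^ 2)⁻¹ • act δ (-β) (-γ) α (act α β γ δ v) = v
      rw [act_adj, smul_smul, inv_mul_cancel₀ (pow_ne_zero 2 h), one_smul]
    right_inv := by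
      intro v
      show act α β γ δ (((α * δ - β * γ) ^ 2)⁻¹ • act δ (-β) (-γ) α v) = v
      rw [map_smul, act_adj', smul_smul, inv_mul_cancel₀ (pow_ne_zero 2 h), one_smul] }

lemma actE_apply (α β γ δ : ℝ) (h : α * δ - β * γ ≠ 0) (v : V3) :
    actE α β γ δ h v = act α β γ δ v := rfl

lemma mem_cone_disc (v : V3) : v ∈ cone unitDisc ↔ 0 < v.2 ∧ v.1.1 ^ 2 + v.1.2 ^ 2 < v.2 ^ 2 := by
  unfold cone
  constructor
  · rintro ⟨h1, h2⟩
    refine ⟨h1, ?_⟩
    rw [mem_unitDisc] at h2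
    simp only [Prod.smul_fst, Prod.smul_snd, smul_eq_mul] at h2
    have e : (v.2⁻¹ * v.1.1) ^ 2 + (v.2⁻¹ * v.1.2) ^ 2 = (v.1.1 ^ 2 + v.1.2 ^ 2) / v.2 ^ 2 := by
      field_simp
    rw [e, div_lt_one (by positivity)] at h2
    exact h2
  · rintro ⟨h1, h2⟩
    refine ⟨h1, ?_⟩
    rw [mem_unitDisc]
    simp only [Prod.smul_fst, Prod.smul_snd, smul_eq_mul]
    have e : (v.2⁻¹ * v.1.1) ^ 2 + (v.2⁻¹ * v.1.2) ^ 2 = (v.1.1 ^ 2 + v.1.2 ^ 2) / v.2 ^ 2 := by
      field_simp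
    rw [e, div_lt_one (by positivity)]
    exact h2

lemma cone_mono {M M' : Set (ℝ × ℝ)} (h : M ⊆ M') : cone M ⊆ cone M' := fun _ hv => ⟨hv.1, h hv.2⟩

/-- a positive definite form takes positive values -/
lemma form_pos {u x s γ δ : ℝ} (hu : 0 < u) (hq : 0 < u * s - x ^ 2) (h : γ ≠ 0 ∨ δ ≠ 0) :
    0 < γ ^ 2 * u + 2 * γ * δ * x + δ ^ 2 * s := by
  have e : u * (γ ^ 2 * u + 2 * γ * δ * x + δ ^ 2 * s) = (γ * u + δ * x) ^ 2 + δ ^ 2 * (u * s - x ^ 2) := by
    ring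
  have h1 : 0 < u * (γ ^ 2 * u + 2 * γ * δ * x + δ ^ 2 * s) := by
    rw [e]
    by_cases hδ : δ = 0
    · subst hδ
      have hγ : γ ≠ 0 := by
        rcases h with h | h
        · exact h
        · exact absurd rfl h
      have : 0 < (γ * u + 0 * x) ^ 2 := by
        have : γ * u + 0 * x ≠ 0 := by
          rw [zero_mul, add_zero]; exact mul_ne_zero hγ hu.ne'
        positivity
      linarith
    · have : 0 < δ ^ 2 * (u * s - x ^ 2) := by positivity
      nlinarith [sq_nonneg (γ * u + δ * x)]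
  exact (pos_iff_pos_of_mul_pos h1).1 hu

lemma act_cone_disc {α β γ δ : ℝ} (h : α * δ - β * γ ≠ 0) {v : V3} (hv : v ∈ cone unitDisc) :
    act α β γ δ v ∈ cone unitDisc := by
  rw [mem_cone_disc] at hv ⊢
  obtain ⟨h1, h2⟩ := hv
  have hu : 0 < v.2 + v.1.2 := by
    have : v.1.2 ^ 2 < v.2 ^ 2 := by nlinarith [sq_nonneg v.1.1]
    have := abs_lt_of_sq_lt_sq this h1.le
    linarith [(abs_lt.1 this).1]
  have hq : 0 < (v.2 + v.1.2) * (v.2 - v.1.2) - v.1.1 ^ 2 := by nlinarith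
  have p1 := form_pos (γ := α) (δ := β) hu hq (by
    by_contra hh
    push Not at hh
    rw [hh.1, hh.2] at h
    simp at h)
  have p2 := form_pos (γ := γ) (δ := δ) hu hq (by
    by_contra hh
    push Not at hh
    rw [hh.1, hh.2] at h
    simp at h)
  constructor
  · show 0 < ((α ^ 2 * (v.2 + v.1.2) + 2 * α * β * v.1.1 + β ^ 2 * (v.2 - v.1.2)) +
        (γ ^ 2 * (v.2 + v.1.2) + 2 * γ * δ * v.1.1 + δ ^ 2 * (v.2 - v.1.2))) / 2
    linarith
  · have e : (act α β γ δ v).2 ^ 2 - ((act α β γ δ v).1.1 ^ 2 + (act α β γ δ v).1.2 ^ 2) =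
        (α * δ - β * γ) ^ 2 * ((v.2 + v.1.2) * (v.2 - v.1.2) - v.1.1 ^ 2) := by
      simp only [act, LinearMap.coe_mk, AddHom.coe_mk]
      ring
    have : 0 < (α * δ - β * γ) ^ 2 * ((v.2 + v.1.2) * (v.2 - v.1.2) - v.1.1 ^ 2) := by positivity
    linarith

/-- rank one matrices -/
noncomputable def rk (p q : ℝ) : V3 := ((p * q, (p ^ 2 - q ^ 2) / 2), (p ^ 2 + q ^ 2) / 2)

lemma act_rk (α β γ δ p q : ℝ) : act α β γ δ (rk p q) = rk (α * p + β * q) (γ * p + δ * q) := by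
  refine Prod.ext (Prod.ext ?_ ?_) ?_ <;>
  simp only [act, rk, LinearMap.coe_mk, AddHom.coe_mk] <;> ring

/-- rational parametrisation of the circle -/
noncomputable def th (s : ℝ) : ℝ × ℝ := (2 * s / (s ^ 2 + 1), (s ^ 2 - 1) / (s ^ 2 + 1))

lemma rk_th (p q s : ℝ) (h : p = s * q) : rk p q = (q ^ 2 * (s ^ 2 + 1) / 2) • up (th s) := by
  have hs : s ^ 2 + 1 ≠ 0 := by positivity
  refine Prod.ext (Prod.ext ?_ ?_) ?_
  · simp only [rk, up, th, Prod.smul_fst, smul_eq_mul, h]; field_simp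
  · simp only [rk, up, th, Prod.smul_fst, Prod.smul_snd, smul_eq_mul, h]; field_simp
  · simp only [rk, up, th, Prod.smul_snd, smul_eq_mul, h]; field_simp

lemma rk_inf (p : ℝ) : rk p 0 = (p ^ 2 / 2) • up (0, 1) := by
  refine Prod.ext (Prod.ext ?_ ?_) ?_
  · simp [rk, up]
  · simp [rk, up]
  · simp [rk, up]

lemma rk_zero (q : ℝ) : rk 0 q = (q ^ 2 / 2) • up (0, -1) := by
  refine Prod.ext (Prod.ext ?_ ?_) ?_
  · simp [rk, up]
  · simp [rk, up]; ring
  · simp [rk, up]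

lemma rk_vB (r : ℝ) : rk (-r) (Real.sqrt 3 * r) = (2 * r ^ 2) • up vB := by
  have s := s3
  refine Prod.ext (Prod.ext ?_ ?_) ?_
  · simp only [rk, up, vB, Prod.smul_fst, smul_eq_mul]; ring
  · simp only [rk, up, vB, Prod.smul_fst, Prod.smul_snd, smul_eq_mul, mul_pow, s]; ring
  · simp only [rk, up, vB, Prod.smul_snd, smul_eq_mul, mul_pow, s]; ring

lemma rk_vC (r : ℝ) : rk r (Real.sqrt 3 * r) = (2 * r ^ 2) • up vC := by
  have s := s3
  refine Prod.ext (Prod.ext ?_ ?_) ?_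
  · simp only [rk, up, vC, Prod.smul_fst, smul_eq_mul]; ring
  · simp only [rk, up, vC, Prod.smul_fst, Prod.smul_snd, smul_eq_mul, mul_pow, s]; ring
  · simp only [rk, up, vC, Prod.smul_snd, smul_eq_mul, mul_pow, s]; ring

/-- boundary points are carried to boundary points -/
lemma closure_transport {Λ : V3 ≃ₗ[ℝ] V3} {M M' : Set (ℝ × ℝ)} (h : PM Λ M M')
    (hD' : M' ⊆ unitDisc) {X : ℝ × ℝ} (hX : X ∈ closure M) :
    0 < (Λ (up X)).2 ∧ pr Λ X ∈ closure M' := by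
  have hcont : Continuous (fun X => Λ (up X)) := (continuous_lin Λ).comp continuous_up
  have hcl : IsClosed {X : ℝ × ℝ | 0 ≤ (Λ (up X)).2 ∧
      (Λ (up X)).1.1 ^ 2 + (Λ (up X)).1.2 ^ 2 ≤ (Λ (up X)).2 ^ 2} := by
    have c2 : Continuous (fun X => (Λ (up X)).2) := continuous_snd.comp hcont
    have c11 : Continuous (fun X => (Λ (up X)).1.1) := (continuous_fst.comp continuous_fst).comp hcont
    have c12 : Continuous (fun X => (Λ (up X)).1.2) := (continuous_snd.comp continuous_fst).comp hcont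
    exact (isClosed_le continuous_const c2).inter
      (isClosed_le ((c11.pow 2).add (c12.pow 2)) (c2.pow 2))
  have hsub : M ⊆ {X : ℝ × ℝ | 0 ≤ (Λ (up X)).2 ∧
      (Λ (up X)).1.1 ^ 2 + (Λ (up X)).1.2 ^ 2 ≤ (Λ (up X)).2 ^ 2} := by
    intro Y hY
    have h1 : Λ (up Y) ∈ cone unitDisc := cone_mono hD' ((h _).1 (mem_cone_up.2 hY))
    rw [mem_cone_disc] at h1
    exact ⟨h1.1.le, h1.2.le⟩
  obtain ⟨h1, h2⟩ := closure_minimal hsub hcl hX
  have hpos : 0 < (Λ (up X)).2 := by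
    rcases eq_or_lt_of_le h1 with h0 | h0
    · exfalso
      rw [← h0] at h2
      have e1 : (Λ (up X)).1.1 = 0 := by nlinarith [sq_nonneg (Λ (up X)).1.1, sq_nonneg (Λ (up X)).1.2]
      have e2 : (Λ (up X)).1.2 = 0 := by nlinarith [sq_nonneg (Λ (up X)).1.1, sq_nonneg (Λ (up X)).1.2]
      have e3 : Λ (up X) = 0 := Prod.ext (Prod.ext e1 e2) h0.symm
      rw [LinearEquiv.map_eq_zero_iff] at e3
      have := congrArg Prod.snd e3
      simp [up] at this
    · exact h0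
  refine ⟨hpos, ?_⟩
  have hct : ContinuousAt (pr Λ) X := by
    unfold pr
    refine ContinuousAt.smul (f := fun X => (Λ (up X)).2⁻¹) (g := fun X => (Λ (up X)).1) ?_ ?_
    · exact ContinuousAt.inv₀ (continuous_snd.comp hcont).continuousAt hpos.ne'
    · exact (continuous_fst.comp hcont).continuousAt
  exact hct.continuousWithinAt.mem_closure hX (fun Y hY => h.mem hY)

theorem step {M : Set (ℝ × ℝ)} (hD : M ⊆ unitDisc) (hinf : ((0, 1) : ℝ × ℝ) ∉ closure M)
    {a b c : ℝ} (hca : c < a) (hab : a < b) (ha : th a ∈ closure M) (hb : th b ∈ closure M)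
    (hc : th c ∈ closure M) (hall : ∀ s, th s ∈ closure M → c ≤ s ∧ s ≤ b) :
    ∃ (Λ : V3 ≃ₗ[ℝ] V3) (M' : Set (ℝ × ℝ)), PM Λ M M' ∧ M' ⊆ unitDisc ∧ vA ∈ closure M' ∧
      vB ∈ closure M' ∧ vC ∈ closure M' ∧ ((0, -1) : ℝ × ℝ) ∉ closure M' := by
  have hcb : 0 < b - c := by linarith
  have hac : 0 < a - c := by linarith
  have hba : 0 < b - a := by linarith
  have sp := s3pos
  obtain ⟨α, hα⟩ : ∃ α, α = b + c - 2 * a := ⟨_, rfl⟩
  obtain ⟨β, hβ⟩ : ∃ β, β = a * (b + c) - 2 * b * c := ⟨_, rfl⟩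
  obtain ⟨γ, hγ⟩ : ∃ γ, γ = Real.sqrt 3 * (b - c) := ⟨_, rfl⟩
  obtain ⟨δ, hδ⟩ : ∃ δ, δ = -(Real.sqrt 3 * a * (b - c)) := ⟨_, rfl⟩
  have fa : α * a + β = 2 * ((a - c) * (b - a)) := by rw [hα, hβ]; ring
  have fb : α * b + β = (b - a) * (b - c) := by rw [hα, hβ]; ring
  have fc : α * c + β = (b - c) * (a - c) := by rw [hα, hβ]; ring
  have ga : γ * a + δ = 0 := by rw [hγ, hδ]; ring
  have gb : γ * b + δ = Real.sqrt 3 * ((b - a) * (b - c)) := by rw [hγ, hδ]; ring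
  have gc : γ * c + δ = Real.sqrt 3 * (-((b - c) * (a - c))) := by rw [hγ, hδ]; ring
  have hdet : α * δ - β * γ ≠ 0 := by
    have : α * δ - β * γ = -(Real.sqrt 3 * (b - c) * (2 * ((a - c) * (b - a)))) := by
      rw [← fa, hδ, hγ]; ring
    rw [this]
    have : 0 < Real.sqrt 3 * (b - c) * (2 * ((a - c) * (b - a))) := by positivity
    linarith
  obtain ⟨Λ, hΛ⟩ : ∃ Λ, Λ = actE α β γ δ hdet := ⟨_, rfl⟩
  have hΛa : ∀ v, Λ v = act α β γ δ v := fun v => by rw [hΛ, actE_apply]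
  have hpm : PM Λ M (img Λ M) := PM_img (fun v hv => by
    rw [hΛa]
    exact ((mem_cone_disc _).1 (act_cone_disc hdet (cone_mono hD hv))).1)
  have hD' : img Λ M ⊆ unitDisc := by
    intro Y hY
    have h1 : Λ.symm (up Y) ∈ cone M := hY
    have h2 := act_cone_disc hdet (cone_mono hD h1)
    rw [← hΛa, LinearEquiv.apply_symm_apply, mem_cone_up] at h2
    exact h2
  have hΛth : ∀ s : ℝ, ((s ^ 2 + 1) / 2) • Λ (up (th s)) = rk (α * s + β) (γ * s + δ) := by
    intro s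
    have h1 := rk_th s 1 s (by ring)
    rw [one_pow, one_mul] at h1
    rw [← map_smul, ← h1, hΛa, act_rk]
    congr 1 <;> ring
  have hpr : ∀ (s w : ℝ) (Y : ℝ × ℝ), 0 < w → rk (α * s + β) (γ * s + δ) = w • up Y →
      pr Λ (th s) = Y := by
    intro s w Y hw h1
    have hs : 0 < (s ^ 2 + 1) / 2 := by positivity
    apply pr_eq (w := ((s ^ 2 + 1) / 2)⁻¹ * w) (by positivity)
    rw [mul_smul, ← h1, ← hΛth, smul_smul, inv_mul_cancel₀ hs.ne', one_smul]
  refine ⟨Λ, img Λ M, hpm, hD', ?_, ?_, ?_, ?_⟩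
  · have h1 := (closure_transport hpm hD' ha).2
    rwa [hpr a ((2 * ((a - c) * (b - a))) ^ 2 / 2) vA (by positivity)
      (by rw [ga, fa, rk_inf, vA])] at h1
  · have h1 := (closure_transport hpm hD' hc).2
    rwa [hpr c (2 * (-((b - c) * (a - c))) ^ 2) vB (by
        have : 0 < (b - c) * (a - c) := by positivity
        rw [neg_sq]; positivity)
      (by rw [gc, fc, ← rk_vB, neg_neg])] at h1
  · have h1 := (closure_transport hpm hD' hb).2
    rwa [hpr b (2 * ((b - a) * (b - c)) ^ 2) vC (by positivity)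
      (by rw [gb, fb, ← rk_vC])] at h1
  · intro hN
    have h1 := (closure_transport hpm.symm hD hN).2
    by_cases hα0 : α = 0
    · have hβ0 : β ≠ 0 := by
        intro h0
        rw [hα0, h0] at hdet
        simp at hdet
      have e1 : Λ (rk (-β) 0) = rk 0 (-(γ * β)) := by
        rw [hΛa, act_rk, hα0]
        congr 1 <;> ring
      have hγβ : γ * β ≠ 0 := by
        intro h0
        apply hdet
        rw [hα0]
        linarith
      rw [rk_inf, rk_zero, map_smul] at e1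
      have e2 : Λ (up (0, 1)) = (((-β) ^ 2 / 2)⁻¹ * ((-(γ * β)) ^ 2 / 2)) • up (0, -1) := by
        rw [mul_smul, ← e1, smul_smul, inv_mul_cancel₀ (by
          rw [neg_sq]; positivity), one_smul]
      have e3 : pr Λ (0, 1) = (0, -1) := pr_eq (by
        rw [neg_sq, neg_sq]; positivity) e2
      have e4 : pr Λ.symm (pr Λ (0, 1)) = (0, 1) := pr_symm_pr (by
        rw [e2, smul_up]
        show ((-β) ^ 2 / 2)⁻¹ * ((-(γ * β)) ^ 2 / 2) ≠ 0
        rw [neg_sq, neg_sq]; positivity)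
      rw [← e3, e4] at h1
      exact hinf h1
    · obtain ⟨s, hs⟩ : ∃ s, s = -β / α := ⟨_, rfl⟩
      have hfs : α * s + β = 0 := by rw [hs]; field_simp; ring
      have hgs : γ * s + δ ≠ 0 := by
        intro h0
        apply hdet
        have h2 : β = -(α * s) := by linarith
        have h3 : δ = -(γ * s) := by linarith
        rw [h2, h3]; ring
      have e2 := hΛth s
      rw [hfs, rk_zero] at e2
      have hs1 : 0 < (s ^ 2 + 1) / 2 := by positivity
      have e3 : Λ (up (th s)) = (((s ^ 2 + 1) / 2)⁻¹ * ((γ * s + δ) ^ 2 / 2)) • up (0, -1) := by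
        rw [mul_smul, ← e2, smul_smul, inv_mul_cancel₀ hs1.ne', one_smul]
      have hw : ((s ^ 2 + 1) / 2)⁻¹ * ((γ * s + δ) ^ 2 / 2) ≠ 0 := by positivity
      have e4 : pr Λ (th s) = (0, -1) := pr_eq hw e3
      have e5 : pr Λ.symm (pr Λ (th s)) = th s := pr_symm_pr (by
        rw [e3, smul_up]; exact hw)
      rw [← e4, e5] at h1
      obtain ⟨k1, k2⟩ := hall s h1
      -- the affine function `α s + β` is positive on `[c, b]`
      have : (b - c) * (α * s + β) = (s - c) * (α * b + β) + (b - s) * (α * c + β) := by ring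
      rw [hfs, fb, fc] at this
      have p1 : 0 < (b - a) * (b - c) := by positivity
      have p2 : 0 < (b - c) * (a - c) := by positivity
      rcases eq_or_lt_of_le k1 with h0 | h0
      · rw [← h0] at this
        have : 0 < (b - c) * ((b - c) * (a - c)) := by positivity
        nlinarith
      · have : 0 < (s - c) * ((b - a) * (b - c)) := mul_pos (by linarith) p1
        have : 0 ≤ (b - s) * ((b - c) * (a - c)) := mul_nonneg (by linarith) p2.le
        linarith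

lemma bdd {M : Set (ℝ × ℝ)} (hM : IsOpen M) (hc : Convex ℝ M) :
    BddBelow {ϱ : ℝ | ∃ A B C O P Q R : ℝ × ℝ, IsConfig M A B C O P Q R ∧
      ϱ = configRatio M A B C O P Q R} := by
  refine ⟨0, ?_⟩
  rintro _ ⟨A, B, C, O, P, Q, R, h, rfl⟩
  obtain ⟨hA, hB, hC, -, ⟨α, β, γ, hα, hβ, hγ, hsum, hOe⟩, hP, hQ, hR⟩ := h
  have hO : O ∈ M := by
    rw [hOe]
    have h1 : α • A + β • B + γ • C = (α + β) • ((α/(α+β)) • A + (β/(α+β)) • B) + γ • C := by
      rw [smul_add, smul_smul, smul_smul, mul_div_cancel₀ _ (by positivity),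
        mul_div_cancel₀ _ (by positivity)]
    rw [h1]
    apply hc _ hC (by positivity) hγ.le hsum
    apply hc hA hB (by positivity) (by positivity)
    field_simp
  have hnn : ∀ X ∈ M, 0 ≤ Real.tanh (hdist M O X) := by
    intro X hX
    have hv : O + (X - O) ∈ M := by rwa [add_sub_cancel]
    have := tanh_hdist hM hc hO hv
    rw [add_sub_cancel] at this
    rw [this]
    apply div_nonneg (nn_nonneg _)
    have h1 : gg M O (X - O) < 1 := (gg_lt_one_iff hM hc hO _).2 hv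
    linarith [gg_nonneg (M := M) (O := O) (-(X - O))]
  unfold configRatio
  apply div_nonneg
  · linarith [hnn A hA, hnn B hB, hnn C hC]
  · linarith [hnn P hP.2.1, hnn Q hQ.2.1, hnn R hR.2.1]

theorem step2 {M₀ M : Set (ℝ × ℝ)} (h0 : IsHilbertDomain M₀) {Λ₀ : V3 ≃ₗ[ℝ] V3}
    (hpm : PM Λ₀ M₀ M) (hD : M ⊆ unitDisc) (hA : vA ∈ closure M)
    (hB : vB ∈ closure M) (hC : vC ∈ closure M) (hN : ((0, -1) : ℝ × ℝ) ∉ closure M) :
    erdosRatio M₀ < 2 := by
  have hM : IsOpen M := hpm.isOpen h0.isOpen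
  have hc : Convex ℝ M := hpm.convex h0.convex
  obtain ⟨t, ht0, ht1, mO, mA, mB, mC, hkey⟩ := key hM hc hD hA hB hC hN
  rw [hpm.erdosRatio_eq h0.isOpen hM h0.convex hc]
  have foot : ∀ V W : ℝ × ℝ, V ∈ M → W ∈ M → V ≠ W → ∃ F, IsFoot M 0 V W F := by
    intro V W hV hW hne
    have hne' : pr Λ₀.symm V ≠ pr Λ₀.symm W := by
      intro h
      apply hne
      rw [← hpm.pr_pr_symm hV, ← hpm.pr_pr_symm hW, h]
    obtain ⟨F, hF⟩ := exists_foot h0 (hpm.symm.mem mO) (hpm.symm.mem hV) hne'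
    have := hpm.isFoot h0.isOpen hM (hpm.symm.mem mO) (hpm.symm.mem hV) (hpm.symm.mem hW) hF
    rw [hpm.pr_pr_symm hV, hpm.pr_pr_symm hW, hpm.pr_pr_symm mO] at this
    exact ⟨_, this⟩
  have sp := s3pos
  have n1 : t • vB ≠ t • vC := by
    intro h
    have := congrArg Prod.fst h
    simp only [vB, vC, Prod.smul_mk, smul_eq_mul] at this
    nlinarith [mul_pos ht0 sp]
  have n2 : t • vC ≠ t • vA := by
    intro h
    have := congrArg Prod.snd h
    simp only [vA, vC, Prod.smul_mk, smul_eq_mul] at this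
    nlinarith
  have n3 : t • vA ≠ t • vB := by
    intro h
    have := congrArg Prod.snd h
    simp only [vA, vB, Prod.smul_mk, smul_eq_mul] at this
    nlinarith
  obtain ⟨P, hP⟩ := foot _ _ mB mC n1
  obtain ⟨Q, hQ⟩ := foot _ _ mC mA n2
  obtain ⟨R, hR⟩ := foot _ _ mA mB n3
  obtain ⟨k1, k2⟩ := hkey P Q R hP hQ hR
  exact (csInf_le (bdd hM hc) ⟨_, _, _, _, _, _, _, k1, rfl⟩).trans_lt k2

end Pool.Agent.KS6_95.ER
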